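import Pool.Agent.Y195.HF.Gauss

/-!
# Gaussian means of truncated exponentials
-/

set_option autoImplicit false

namespace Pool.Agent.U908.LP

open MeasureTheory Pool.Agent.Y195.HF

/-- The Gaussian mean of a nonnegative polynomial. -/
theorem gauss_poly (n : ℕ) (f : ℕ → ℝ)
    (h : ∀ s : ℝ, 0 ≤ ∑ a ∈ Finset.range (2 * n + 1), f a * s ^ a) :
    0 ≤ ∑ b ∈ Finset.range (n + 1), f (2 * b) * ((2 * b).factorial / b.factorial) := by
  have hI : (0 : ℝ) ≤ ∫ t : ℝ, (∑ a ∈ Finset.range (2 * n + 1), f a * (2 * t) ^ a) *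
      Real.exp (-t ^ 2) :=
    integral_nonneg fun t => mul_nonneg (h (2 * t)) (Real.exp_pos _).le
  have h1 : ∀ t : ℝ, (∑ a ∈ Finset.range (2 * n + 1), f a * (2 * t) ^ a) * Real.exp (-t ^ 2) =
      ∑ a ∈ Finset.range (2 * n + 1), (f a * 2 ^ a) * (t ^ a * Real.exp (-t ^ 2)) := by
    intro t
    rw [Finset.sum_mul]
    refine Finset.sum_congr rfl fun a _ => ?_
    rw [mul_pow]
    ring
  simp only [h1] at hI
  rw [integral_finsetSum _ fun a _ => (gint a).const_mul _] at hI
  have h2 : ∀ a, ∫ t : ℝ, (f a * 2 ^ a) * (t ^ a * Real.exp (-t ^ 2)) = (f a * 2 ^ a) * gmom a :=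
    fun a => integral_const_mul _ _
  simp only [h2] at hI
  have h3 : ∀ (g : ℕ → ℝ) (n : ℕ), ∑ a ∈ Finset.range (2 * n + 1), g a =
      (∑ k ∈ Finset.range (n + 1), g (2 * k)) + ∑ k ∈ Finset.range n, g (2 * k + 1) := by
    intro g n
    induction n with
    | zero => simp
    | succ m ih =>
      rw [show 2 * (m + 1) + 1 = (2 * m + 1) + 1 + 1 by ring, Finset.sum_range_succ,
        Finset.sum_range_succ, ih, Finset.sum_range_succ (fun k => g (2 * k)) (m + 1),
        Finset.sum_range_succ (fun k => g (2 * k + 1)) m]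
      have h1 : 2 * (m + 1) = 2 * m + 1 + 1 := by ring
      rw [h1]
      ring
  rw [h3, Finset.sum_eq_zero (s := Finset.range n) (fun k _ => by
    rw [gmom_odd ⟨k, rfl⟩, mul_zero]), add_zero] at hI
  have h4 : ∑ k ∈ Finset.range (n + 1), f (2 * k) * 2 ^ (2 * k) * gmom (2 * k) =
      Real.sqrt Real.pi * ∑ b ∈ Finset.range (n + 1), f (2 * b) *
        ((2 * b).factorial / b.factorial) := by
    rw [Finset.mul_sum]
    refine Finset.sum_congr rfl fun k _ => ?_
    rw [gmom_even, pow_mul]
    have h5 : (4 : ℝ) ^ k ≠ 0 := by positivity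
    have h6 : ((2 : ℝ) ^ 2) ^ k = 4 ^ k := by norm_num
    rw [h6]
    have h7 : (k.factorial : ℝ) ≠ 0 := by exact_mod_cast (Nat.factorial_pos _).ne'
    field_simp
  rw [h4] at hI
  exact nonneg_of_mul_nonneg_right hI (Real.sqrt_pos.2 Real.pi_pos)

section

variable {R : Type} [CommRing R] [Algebra ℝ R]

/-- the part of degree `m` of `L(exp(U + T))`, where `U` has degree one half -/
noncomputable def XF (L : R →ₗ[ℝ] ℝ) (m : ℕ) (U T : R) : ℝ :=
  ∑ k ∈ Finset.range (m + 1), (1 / ((2 * k).factorial * (m - k).factorial) : ℝ) *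
    L (U ^ (2 * k) * T ^ (m - k))

/-- one variable -/
theorem XF_one (L : R →ₗ[ℝ] ℝ) (m : ℕ) (U T y : R)
    (h : ∀ s : ℝ, 0 ≤ XF L m (U + s • y) T) : 0 ≤ XF L m U (T + y ^ 2) := by
  set f : ℕ → ℝ := fun a => ∑ k ∈ Finset.range (m + 1),
    (1 / ((2 * k).factorial * (m - k).factorial) : ℝ) *
      (((2 * k).choose a : ℝ) * L (U ^ (2 * k - a) * y ^ a * T ^ (m - k))) with hf
  have h1 : ∀ s : ℝ, XF L m (U + s • y) T = ∑ a ∈ Finset.range (2 * m + 1), f a * s ^ a := by
    intro s
    unfold XF
    simp only [hf, Finset.sum_mul]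
    rw [Finset.sum_comm]
    refine Finset.sum_congr rfl fun k hk => ?_
    rw [Finset.mem_range] at hk
    have h2 : (U + s • y) ^ (2 * k) * T ^ (m - k) = ∑ a ∈ Finset.range (2 * k + 1),
        (((2 * k).choose a : ℝ) * s ^ a) • (U ^ (2 * k - a) * y ^ a * T ^ (m - k)) := by
      rw [add_comm U, add_pow, Finset.sum_mul]
      refine Finset.sum_congr rfl fun a _ => ?_
      simp only [Algebra.smul_def, map_mul, map_pow, map_natCast, mul_pow]
      ring
    rw [h2, map_sum, Finset.mul_sum]
    have h3 : Finset.range (2 * k + 1) ⊆ Finset.range (2 * m + 1) :=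
      Finset.range_mono (by omega)
    rw [← Finset.sum_subset h3 (fun a _ ha => by
      rw [Finset.mem_range] at ha
      rw [Nat.choose_eq_zero_of_lt (by omega)]
      simp)]
    refine Finset.sum_congr rfl fun a _ => ?_
    rw [map_smul, smul_eq_mul]
    ring
  have h2 := gauss_poly m f fun s => by rw [← h1]; exact h s
  refine h2.trans (le_of_eq ?_)
  -- the combinatorial identity
  have h3 : XF L m U (T + y ^ 2) = ∑ k ∈ Finset.range (m + 1), ∑ b ∈ Finset.range (m - k + 1),
      (1 / ((2 * k).factorial * (b.factorial * (m - k - b).factorial)) : ℝ) *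
        L (U ^ (2 * k) * y ^ (2 * b) * T ^ (m - k - b)) := by
    unfold XF
    refine Finset.sum_congr rfl fun k hk => ?_
    rw [add_comm T, add_pow, Finset.mul_sum, map_sum, Finset.mul_sum]
    refine Finset.sum_congr rfl fun b hb => ?_
    rw [Finset.mem_range] at hb
    have h4 : U ^ (2 * k) * ((y ^ 2) ^ b * T ^ (m - k - b) * ((m - k).choose b : R)) =
        (((m - k).choose b : ℝ)) • (U ^ (2 * k) * y ^ (2 * b) * T ^ (m - k - b)) := by
      simp only [Algebra.smul_def, map_natCast, pow_mul]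
      ring
    rw [h4, map_smul, smul_eq_mul, ← mul_assoc]
    congr 1
    have h5 := Nat.choose_mul_factorial_mul_factorial (show b ≤ m - k by omega)
    have e0 : ((m - k).factorial : ℝ) ≠ 0 := by exact_mod_cast (Nat.factorial_pos _).ne'
    have e1 : ((2 * k).factorial : ℝ) ≠ 0 := by exact_mod_cast (Nat.factorial_pos _).ne'
    have e2 : (b.factorial : ℝ) ≠ 0 := by exact_mod_cast (Nat.factorial_pos _).ne'
    have e3 : ((m - k - b).factorial : ℝ) ≠ 0 := by exact_mod_cast (Nat.factorial_pos _).ne'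
    have h6 : ((m - k).choose b : ℝ) * (b.factorial * (m - k - b).factorial) =
        (m - k).factorial := by
      rw [← h5]
      push_cast
      ring
    rw [← h6]
    have e4 : ((m - k).choose b : ℝ) ≠ 0 := by
      intro h
      rw [h, zero_mul] at h6
      exact e0 h6.symm
    field_simp
  rw [h3]
  simp only [hf, Finset.sum_mul]
  have h7 : ∀ b ∈ Finset.range (m + 1), ∑ k ∈ Finset.range (m + 1),
      1 / (((2 * k).factorial : ℝ) * ((m - k).factorial : ℝ)) *
        (((2 * k).choose (2 * b) : ℝ) * L (U ^ (2 * k - 2 * b) * y ^ (2 * b) * T ^ (m - k))) *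
        (((2 * b).factorial : ℝ) / (b.factorial : ℝ)) =
      ∑ k ∈ Finset.range (m - b + 1),
      (1 / ((2 * k).factorial * (b.factorial * (m - k - b).factorial)) : ℝ) *
        L (U ^ (2 * k) * y ^ (2 * b) * T ^ (m - k - b)) := by
    intro b hb
    rw [Finset.mem_range] at hb
    have h8 : Finset.Ico b (m + 1) ⊆ Finset.range (m + 1) := by
      intro k hk
      rw [Finset.mem_Ico] at hk
      rw [Finset.mem_range]
      exact hk.2
    rw [← Finset.sum_subset h8 (fun k _ hk => by
      rw [Finset.mem_Ico] at hk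
      have hkb : k < b := by
        by_contra hcon
        apply hk
        refine ⟨by omega, ?_⟩
        rename_i hk1
        exact Finset.mem_range.1 hk1
      rw [Nat.choose_eq_zero_of_lt (by omega)]
      simp), Finset.sum_Ico_eq_sum_range]
    have h9 : m + 1 - b = m - b + 1 := by omega
    rw [h9]
    refine Finset.sum_congr rfl fun k hk => ?_
    rw [Finset.mem_range] at hk
    have e1 : 2 * (b + k) - 2 * b = 2 * k := by omega
    have e2 : m - (b + k) = m - k - b := by omega
    rw [e1, e2]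
    have h5 := Nat.choose_mul_factorial_mul_factorial (show 2 * b ≤ 2 * (b + k) by omega)
    rw [e1] at h5
    have h6 : ((2 * (b + k)).choose (2 * b) : ℝ) * ((2 * b).factorial * (2 * k).factorial) =
        (2 * (b + k)).factorial := by
      rw [← h5]
      push_cast
      ring
    have f1 : ((2 * (b + k)).factorial : ℝ) ≠ 0 := by exact_mod_cast (Nat.factorial_pos _).ne'
    have f2 : (b.factorial : ℝ) ≠ 0 := by exact_mod_cast (Nat.factorial_pos _).ne'
    have f3 : ((m - k - b).factorial : ℝ) ≠ 0 := by exact_mod_cast (Nat.factorial_pos _).ne'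
    have f4 : ((2 * k).factorial : ℝ) ≠ 0 := by exact_mod_cast (Nat.factorial_pos _).ne'
    have f5 : ((2 * b).factorial : ℝ) ≠ 0 := by exact_mod_cast (Nat.factorial_pos _).ne'
    have f6 : ((2 * (b + k)).choose (2 * b) : ℝ) ≠ 0 := by
      intro h
      rw [h, zero_mul] at h6
      exact f1 h6.symm
    rw [← h6]
    field_simp
  rw [Finset.sum_congr rfl h7]
  refine Finset.sum_comm' fun b k => ?_
  simp only [Finset.mem_range]
  omega

/-- several variables -/
theorem XF_many {ι : Type} [DecidableEq ι] (L : R →ₗ[ℝ] ℝ) (m : ℕ) (y : ι → R) (s : Finset ι) :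
    ∀ U T : R, (∀ ξ : ι → ℝ, 0 ≤ XF L m (U + ∑ i ∈ s, ξ i • y i) T) →
      0 ≤ XF L m U (T + ∑ i ∈ s, y i ^ 2) := by
  induction s using Finset.induction_on with
  | empty =>
    intro U T h
    simpa using h 0
  | insert a s ha ih =>
    intro U T h
    rw [Finset.sum_insert ha, ← add_assoc]
    refine ih U (T + y a ^ 2) fun ξ => ?_
    refine XF_one L m _ T (y a) fun t => ?_
    have h1 := h (fun i => if i = a then t else ξ i)
    rw [Finset.sum_insert ha, if_pos rfl] at h1
    have h2 : ∑ i ∈ s, (if i = a then t else ξ i) • y i = ∑ i ∈ s, ξ i • y i := by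
      refine Finset.sum_congr rfl fun i hi => ?_
      rw [if_neg]
      rintro rfl
      exact ha hi
    rw [h2] at h1
    have h3 : U + ∑ i ∈ s, ξ i • y i + t • y a = U + (t • y a + ∑ i ∈ s, ξ i • y i) := by ring
    rw [h3]
    exact h1

end

end Pool.Agent.U908.LP
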