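import Pool.Agent.U908.LP.Wq
import Pool.Agent.U908.LP.Gau

/-!
# Assembly
-/

set_option autoImplicit false

namespace Pool.Agent.U908.LP

open Pool.Agent.Y195.HF Pool.Agent.U908.LC Pool.Agent.W666.GB Pool.Agent.W669.HD

section rot

variable {m : ℕ} {A B : Mt m}

theorem rot_planar (hA : ∀ i j, A j i = - A i j) (hB : ∀ i j, B j i = - B i j)
    (p₁ p₂ p₃ q₁ q₂ q₃ : ℝ) : ∃ a b c d : ℝ, ∀ (T : Zc (I2 m → ℂ)), Inv T → ∀ N : ℕ,
      LF m (zval ((vv p₁ p₂ p₃ A + vv q₁ q₂ q₃ B) ^ N * T)) =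
        LF m (zval ((vv a b 0 A + vv c d 0 B) ^ N * T)) := by
  obtain ⟨n₁, n₂, n₃, hn, hp, hq⟩ := normal_exists p₁ p₂ p₃ q₁ q₂ q₃
  set r : ℝ := Real.sqrt (n₁ ^ 2 + n₂ ^ 2) with hr
  have hr2 : r ^ 2 = n₁ ^ 2 + n₂ ^ 2 := Real.sq_sqrt (by positivity)
  obtain ⟨c, s, hcs, hc, hs⟩ : ∃ c s : ℝ, c ^ 2 + s ^ 2 = 1 ∧ r * c = n₂ ∧ r * s = n₁ := by
    by_cases h : r = 0
    · rw [h] at hr2
      refine ⟨1, 0, by norm_num, ?_, ?_⟩
      · have : n₂ = 0 := by nlinarith [sq_nonneg n₁, sq_nonneg n₂]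
        rw [this, h]; ring
      · have : n₁ = 0 := by nlinarith [sq_nonneg n₁, sq_nonneg n₂]
        rw [this, h]; ring
    · refine ⟨n₂ / r, n₁ / r, ?_, ?_, ?_⟩
      · field_simp
        linarith
      · field_simp
      · field_simp
  set ρ : ℝ := Real.sqrt (r ^ 2 + n₃ ^ 2) with hρ
  have hρ2 : ρ ^ 2 = r ^ 2 + n₃ ^ 2 := Real.sq_sqrt (by positivity)
  have hρ0 : ρ ≠ 0 := by
    intro h
    apply hn
    rw [h] at hρ2
    linarith
  have hu : (n₃ / ρ) ^ 2 + (r / ρ) ^ 2 = 1 := by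
    field_simp
    linarith
  obtain ⟨g, t, hgt, hg, ht⟩ := sqrt_exists hu
  obtain ⟨z, hz⟩ := IsAlgClosed.exists_pow_nat_eq ((c : ℂ) + Complex.I * s) (n := 2) two_pos
  refine ⟨c * p₁ - s * p₂, (g ^ 2 - t ^ 2) * (s * p₁ + c * p₂) - (2 * g * t) * p₃,
    c * q₁ - s * q₂, (g ^ 2 - t ^ 2) * (s * q₁ + c * q₂) - (2 * g * t) * q₃, fun T hT N => ?_⟩
  -- first rotation
  have e1 : LF m (zval ((vv p₁ p₂ p₃ A + vv q₁ q₂ q₃ B) ^ N * T)) =
      LF m (zval ((vv (c * p₁ - s * p₂) (s * p₁ + c * p₂) p₃ A +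
        vv (c * q₁ - s * q₂) (s * q₁ + c * q₂) q₃ B) ^ N * T)) := by
    have h1 := rot12 hA hcs hz p₁ p₂ p₃
    have h2 := rot12 hB hcs hz q₁ q₂ q₃
    rw [← LF_act h1.1]
    congr 1
    simp only [map_mul, map_pow, map_add, h1.2, h2.2, hT _ _ _ _ h1.1]
  have e2 : ∀ p₁ p₂ p₃ q₁ q₂ q₃ : ℝ,
      LF m (zval ((vv p₁ p₂ p₃ A + vv q₁ q₂ q₃ B) ^ N * T)) =
      LF m (zval ((vv p₁ ((g ^ 2 - t ^ 2) * p₂ - (2 * g * t) * p₃)
        ((2 * g * t) * p₂ + (g ^ 2 - t ^ 2) * p₃) A +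
        vv q₁ ((g ^ 2 - t ^ 2) * q₂ - (2 * g * t) * q₃)
        ((2 * g * t) * q₂ + (g ^ 2 - t ^ 2) * q₃) B) ^ N * T)) := by
    intro p₁ p₂ p₃ q₁ q₂ q₃
    have h1 := rot23 hA hgt p₁ p₂ p₃
    have h2 := rot23 hB hgt q₁ q₂ q₃
    rw [← LF_act h1.1]
    congr 1
    simp only [map_mul, map_pow, map_add, h1.2, h2.2, hT _ _ _ _ h1.1]
  rw [e1, e2]
  have z1 : (2 * g * t) * (s * p₁ + c * p₂) + (g ^ 2 - t ^ 2) * p₃ = 0 := by
    rw [hg, ht]
    field_simp
    have : r * (s * p₁ + c * p₂) + n₃ * p₃ = (r * s) * p₁ + (r * c) * p₂ + n₃ * p₃ := by ring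
    rw [hs, hc] at this
    linarith
  have z2 : (2 * g * t) * (s * q₁ + c * q₂) + (g ^ 2 - t ^ 2) * q₃ = 0 := by
    rw [hg, ht]
    field_simp
    have : r * (s * q₁ + c * q₂) + n₃ * q₃ = (r * s) * q₁ + (r * c) * q₂ + n₃ * q₃ := by ring
    rw [hs, hc] at this
    linarith
  rw [z1, z2]

theorem pl_add (C D : Mt m) : pl (C + D) = pl C + pl D := by
  have h : cj (C + D) = cj C + cj D := by
    funext i j
    simp only [cj, Pi.add_apply, map_add]
  unfold pl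
  rw [h, ff_add, ff_add]
  abel

theorem vv_pl (p₁ p₂ : ℝ) (hA : cj A = A) :
    vv p₁ p₂ 0 A = pl ((((p₁ : ℂ) + Complex.I * p₂) / 2) • A) := by
  have h := vv_planar p₁ p₂ 0 0 hA hA
  have h2 : (((0 : ℝ) : ℂ) + Complex.I * ((0 : ℝ) : ℂ)) / 2 = 0 := by simp
  have h3 : vv 0 0 0 A = 0 := by simp [vv, uu]
  rw [h3, h2, zero_smul, add_zero, add_zero] at h
  exact h

theorem vv_two_sq (A : Mt m) : vv 1 0 0 A ^ 2 + vv 0 1 0 A ^ 2 =
    ff false false A * ff true true A := by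
  have h := vv_sq A
  have h3 : vv 0 0 1 A ^ 2 = -ff false true A ^ 2 := by
    have : vv 0 0 1 A = Complex.I • ff false true A := by
      simp only [vv, uu]
      norm_num
    rw [this, smul_pow, Complex.I_sq, neg_one_smul]
  rw [h3, qi] at h
  linear_combination h

end rot

section asm

variable {I K : Type} [Fintype I] [DecidableEq I] [Fintype K] [DecidableEq K] {m : ℕ}

/-- the symmetric part -/
noncomputable def sB (B : I × Option K → Fin m × Bool → Fin m × Bool → ℝ) : Zc (I2 m → ℂ) :=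
  ((-2 : ℝ) : ℂ) • qe B

/-- With a nonnegative curvature operator, in a plane. -/
theorem planar_pos (B : I × Option K → Fin m × Bool → Fin m × Bool → ℝ)
    (hs : ∀ s i j, B s i j = B s j i)
    (hc : ∀ i x, 0 ≤ qd (B (i, none)) x ∧
      ∑ k, qd (B (i, some k)) x ^ 2 ≤ qd (B (i, none)) x ^ 2)
    (hpos : ∀ x, x ≠ 0 → 0 < ∑ i, qd (B (i, none)) x) {P : T4 m} (hP : Adm P) {C : Mt m}
    (hC : ∀ i j, C j i = - C i j) : 0 ≤ XF (LR m) m (pl C) (sB B + eL (cx P)) := by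
  obtain ⟨n, ν, hν, hK⟩ := hP.sq
  set y : Fin n × Bool → Zc (I2 m → ℂ) := fun x =>
    if x.2 = true then vv 0 1 0 (cm (ν x.1)) else vv 1 0 0 (cm (ν x.1)) with hy
  have h1 : eL (cx P) = ∑ x ∈ (Finset.univ : Finset (Fin n × Bool)), y x ^ 2 := by
    have h2 : (cx P : C4 m) = fun i j k l => ∑ a, cm (ν a) i j * cm (ν a) k l := by
      funext i j k l
      simp only [cx, cm, hK i j k l]
      push_cast
      rfl
    rw [h2, eL_sum (fun a i j k l => cm (ν a) i j * cm (ν a) k l), Fintype.sum_prod_type]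
    refine Finset.sum_congr rfl fun a _ => ?_
    rw [eL_mul, ← vv_two_sq, Fintype.sum_bool]
    simp only [hy]
    simp only [Bool.false_eq_true, if_true, if_false]
    ring
  rw [h1]
  refine XF_many (LR m) m y Finset.univ (pl C) (sB B) fun ξ => ?_
  have h2 : pl C + ∑ x ∈ (Finset.univ : Finset (Fin n × Bool)), ξ x • y x =
      pl (C + ∑ a, (((ξ (a, false) : ℂ) + Complex.I * ξ (a, true)) / 2) • cm (ν a)) := by
    rw [pl_add]
    congr 1
    have h3 : ∀ (s : Finset (Fin n)), pl (∑ a ∈ s,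
        (((ξ (a, false) : ℂ) + Complex.I * ξ (a, true)) / 2) • cm (ν a)) =
        ∑ a ∈ s, vv (ξ (a, false)) (ξ (a, true)) 0 (cm (ν a)) := by
      intro s
      induction s using Finset.induction_on with
      | empty =>
        have : cj (0 : Mt m) = 0 := by
          funext i j
          simp [cj]
        simp [pl, this, ff]
      | insert a s ha ih => rw [Finset.sum_insert ha, Finset.sum_insert ha, pl_add, ih,
          vv_pl _ _ (cj_cm _)]
    rw [h3, Fintype.sum_prod_type]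
    refine Finset.sum_congr rfl fun a _ => ?_
    rw [Fintype.sum_bool, ← vv_comb (ξ (a, false)) (ξ (a, true)) 0]
    simp only [hy]
    simp only [Bool.false_eq_true, if_true, if_false, zero_smul, add_zero]
    rw [add_comm]
  rw [h2]
  have hC' : ∀ i j, (C + ∑ a, (((ξ (a, false) : ℂ) + Complex.I * ξ (a, true)) / 2) •
      cm (ν a)) j i = -(C + ∑ a, (((ξ (a, false) : ℂ) + Complex.I * ξ (a, true)) / 2) •
      cm (ν a)) i j := by
    intro i j
    simp only [Pi.add_apply, Finset.sum_apply, Pi.smul_apply, smul_eq_mul, hC i j]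
    rw [neg_add, ← Finset.sum_neg_distrib]
    congr 1
    refine Finset.sum_congr rfl fun a _ => ?_
    simp only [cm, hν a i j]
    push_cast
    ring
  exact W_nonneg B hs hc hpos hC' (κ := 2) (by norm_num)

omit [DecidableEq I] [DecidableEq K] in
theorem sB_inv (B : I × Option K → Fin m × Bool → Fin m × Bool → ℝ)
    (hs : ∀ s i j, B s i j = B s j i) : Inv (sB B) := (qe_inv B hs).smul _

/-- **The main positivity.** -/
theorem all_pos (B : I × Option K → Fin m × Bool → Fin m × Bool → ℝ)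
    (hs : ∀ s i j, B s i j = B s j i)
    (hc : ∀ i x, 0 ≤ qd (B (i, none)) x ∧
      ∑ k, qd (B (i, some k)) x ^ 2 ≤ qd (B (i, none)) x ^ 2)
    (hpos : ∀ x, x ≠ 0 → 0 < ∑ i, qd (B (i, none)) x) {P : T4 m} (hP : Adm P)
    {A A' : Fin m × Bool → Fin m × Bool → ℝ} (hA : ∀ i j, A j i = - A i j)
    (hA' : ∀ i j, A' j i = - A' i j) :
    0 ≤ LR m ((sB B + eL (cx P) + (2 : ℂ) • (qi (cm A) + qi (cm A'))) ^ m) := by
  have hcA : ∀ i j, cm A j i = - cm A i j := fun i j => by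
    simp only [cm, hA i j, Complex.ofReal_neg]
  have hcA' : ∀ i j, cm A' j i = - cm A' i j := fun i j => by
    simp only [cm, hA' i j, Complex.ofReal_neg]
  set T := sB B + eL (cx P) with hT
  have hTI : Inv T := (sB_inv B hs).add hP.inv
  set y : Fin 3 ⊕ Fin 3 → Zc (I2 m → ℂ) := fun i => Real.sqrt 2 • xx (cm A) (cm A') i with hy
  have h1 : ∑ i ∈ (Finset.univ : Finset (Fin 3 ⊕ Fin 3)), y i ^ 2 =
      (2 : ℂ) • (qi (cm A) + qi (cm A')) := by
    rw [← xx_sq, Finset.smul_sum]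
    refine Finset.sum_congr rfl fun i _ => ?_
    simp only [hy]
    rw [smul_pow, Real.sq_sqrt (by norm_num), ← Complex.coe_smul]
    norm_num
  have h2 : 0 ≤ XF (LR m) m 0 (T + ∑ i ∈ (Finset.univ : Finset (Fin 3 ⊕ Fin 3)), y i ^ 2) := by
    refine XF_many (LR m) m y Finset.univ 0 T fun ξ => ?_
    have h3 : (0 : Zc (I2 m → ℂ)) + ∑ i ∈ (Finset.univ : Finset (Fin 3 ⊕ Fin 3)), ξ i • y i =
        ∑ i, (ξ i * Real.sqrt 2) • xx (cm A) (cm A') i := by
      rw [zero_add]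
      refine Finset.sum_congr rfl fun i _ => ?_
      simp only [hy]
      rw [smul_smul]
    rw [h3, xx_sum]
    obtain ⟨a, b, c, d, hrot⟩ := rot_planar hcA hcA' (ξ (Sum.inl 0) * Real.sqrt 2)
      (ξ (Sum.inl 1) * Real.sqrt 2) (ξ (Sum.inl 2) * Real.sqrt 2) (ξ (Sum.inr 0) * Real.sqrt 2)
      (ξ (Sum.inr 1) * Real.sqrt 2) (ξ (Sum.inr 2) * Real.sqrt 2)
    have h4 : XF (LR m) m (vv (ξ (Sum.inl 0) * Real.sqrt 2) (ξ (Sum.inl 1) * Real.sqrt 2)
        (ξ (Sum.inl 2) * Real.sqrt 2) (cm A) + vv (ξ (Sum.inr 0) * Real.sqrt 2)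
        (ξ (Sum.inr 1) * Real.sqrt 2) (ξ (Sum.inr 2) * Real.sqrt 2) (cm A')) T =
        XF (LR m) m (vv a b 0 (cm A) + vv c d 0 (cm A')) T := by
      unfold XF
      refine Finset.sum_congr rfl fun k _ => ?_
      rw [LR_apply, LR_apply, hrot _ (hTI.pow _)]
    rw [h4, vv_pl _ _ (cj_cm _), vv_pl _ _ (cj_cm _), ← pl_add]
    refine planar_pos B hs hc hpos hP ?_
    intro i j
    simp only [Pi.add_apply, Pi.smul_apply, smul_eq_mul, hcA i j, hcA' i j]
    ring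
  rw [h1] at h2
  unfold XF at h2
  rw [Finset.sum_eq_single 0] at h2
  · rw [mul_zero, pow_zero, one_mul, Nat.sub_zero] at h2
    have h5 : (0 : ℝ) < 1 / ((Nat.factorial 0 : ℝ) * m.factorial) := by positivity
    exact nonneg_of_mul_nonneg_right h2 h5
  · intro k _ hk
    rw [zero_pow (by omega), zero_mul, map_zero, mul_zero]
  · intro h
    exact absurd (Finset.mem_range.2 (Nat.succ_pos _)) h

end asm

end Pool.Agent.U908.LP
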