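import Pool.Agent.U908.LP.Asm
import Pool.Agent.U908.LC.Fin

/-!
# The sign for the general class
-/

set_option autoImplicit false

namespace Pool.Agent.U908.LP

open Pool.Agent.W666.GB Pool.Agent.W669.HD Pool.Agent.Y519.HB Pool.Agent.Y195.HF
open Pool.Agent.U908.LC
open Filter Topology

section comp

variable {I K : Type} [Fintype I] [DecidableEq I] [Fintype K] [DecidableEq K] {m : ℕ}

/-- The sign in components. -/
theorem gm_all (B : I × Option K → Fin m × Bool → Fin m × Bool → ℝ)
    (hs : ∀ s i j, B s i j = B s j i)
    (hc : ∀ i x, 0 ≤ qd (B (i, none)) x ∧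
      ∑ k, qd (B (i, some k)) x ^ 2 ≤ qd (B (i, none)) x ^ 2)
    (hpos : ∀ x, x ≠ 0 → 0 < ∑ i, qd (B (i, none)) x) {P : T4 m} (hP : Adm P)
    {A A' : Fin m × Bool → Fin m × Bool → ℝ} (hA : ∀ i j, A j i = - A i j)
    (hA' : ∀ i j, A' j i = - A' i j) :
    0 ≤ gm (fun _ : Fin m => (fun i j k l => P i j k l + (scR A i j k l + scR A' i j k l) +
      ∑ s, er s.2 * (B s i k * B s j l - B s i l * B s j k) : T4 m)) := by
  have h1 : eL (cx (fun i j k l => P i j k l + (scR A i j k l + scR A' i j k l) +
      ∑ s, er s.2 * (B s i k * B s j l - B s i l * B s j k) : T4 m)) =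
      sB B + eL (cx P) + (2 : ℂ) • (qi (cm A) + qi (cm A')) := by
    have e1 : (cx (fun i j k l => P i j k l + (scR A i j k l + scR A' i j k l) +
        ∑ s, er s.2 * (B s i k * B s j l - B s i l * B s j k) : T4 m) : C4 m) =
        fun i j k l => (fun i j k l => (cx P : C4 m) i j k l +
          (fun i j k l => cx (scR A) i j k l + cx (scR A') i j k l : C4 m) i j k l : C4 m) i j k l +
          (fun i j k l => ∑ s : I × Option K, (fun s i j k l => ((er s.2 : ℝ) : ℂ) *
            cx (fun i j k l => B s i k * B s j l - B s i l * B s j k) i j k l :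
              I × Option K → C4 m) s i j k l : C4 m) i j k l := by
      funext i j k l
      simp only [cx]
      push_cast
      rfl
    rw [e1, eL_add, eL_add, eL_add, eL_scR, eL_scR, eL_sum]
    have e2 : ∑ s : I × Option K, eL (fun i j k l => ((er s.2 : ℝ) : ℂ) *
        cx (fun i j k l => B s i k * B s j l - B s i l * B s j k) i j k l : C4 m) = sB B := by
      unfold sB qe
      rw [Finset.smul_sum]
      refine Finset.sum_congr rfl fun s _ => ?_
      rw [eL_smul, xf_sq, smul_smul, smul_smul, mul_comm]
      push_cast
      rfl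
    rw [e2, smul_add]
    ring
  rw [gm_LR, h1]
  exact all_pos B hs hc hpos hP hA hA'

end comp

section sign

variable {V : Type} [NormedAddCommGroup V] [InnerProductSpace ℝ V]

/-- **The sign of the Gauss–Bonnet–Chern integrand of the general class.** -/
theorem all_sign {m : ℕ} (e : OrthonormalBasis (Fin m × Bool) ℝ V) {r : ℕ} {N : Fin r → ℕ}
    {S : Fin r → V → V → V → V → ℝ} (h : ∀ i, CausalT (N i) (S i))
    {P : V → V → V → V → ℝ} (hP : AlgCurv P) (hPn : OpNonneg P) {A A' : V → V → ℝ}
    (hA : SkewForm A) (hA' : SkewForm A') :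
    0 ≤ (-1 : ℝ) ^ m * gbc e (fun x y z w => (∑ i, S i x y z w) - P x y z w -
      skewCurv A x y z w - skewCurv A' x y z w) := by
  choose b β hb hβ hc hS using h
  have hpos : ∀ ε : ℝ, 0 < ε →
      0 ≤ (-1 : ℝ) ^ m * gbc e (fun x y z w => (∑ i, S i x y z w) - P x y z w -
        skewCurv A x y z w - skewCurv A' x y z w - ε * unitT x y z w) := by
    intro ε hε
    have hπ := Real.pi_pos
    set B : Option (Fin r) × Option ((i : Fin r) × Fin (N i)) →
        Fin m × Bool → Fin m × Bool → ℝ := fun s i j =>
      s.1.elim (s.2.elim (Real.sqrt ε * inner ℝ (e i) (e j)) (fun _ => 0))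
        (fun a => s.2.elim (b a (e i) (e j))
          (fun t => if t.1 = a then β t.1 t.2 (e i) (e j) else 0)) with hB
    have hε2 : Real.sqrt ε * Real.sqrt ε = ε := Real.mul_self_sqrt hε.le
    have hq1 : ∀ x : Fin m × Bool → ℝ, qd (B (none, none)) x = Real.sqrt ε * ∑ i, x i ^ 2 := by
      intro x
      unfold qd
      simp only [hB, Option.elim_none]
      rw [Finset.mul_sum]
      refine Finset.sum_congr rfl fun i _ => ?_
      rw [Finset.sum_eq_single i]
      · rw [real_inner_self_eq_norm_sq, e.norm_eq_one]
        ring
      · intro j _ hj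
        rw [e.orthonormal.2 (Ne.symm hj)]
        ring
      · intro h
        exact absurd (Finset.mem_univ _) h
    have hq2 : ∀ (t : (i : Fin r) × Fin (N i)) (x : Fin m × Bool → ℝ),
        qd (B (none, some t)) x = 0 := by
      intro t x
      unfold qd
      simp [hB]
    have hq3 : ∀ (a : Fin r) (x : Fin m × Bool → ℝ),
        qd (B (some a, none)) x = b a (∑ i, x i • e i) (∑ i, x i • e i) := by
      intro a x
      rw [← (hb a).expand (fun i => e i) x]
      rfl
    have hq4 : ∀ (a : Fin r) (x : Fin m × Bool → ℝ),
        ∑ t, qd (B (some a, some t)) x ^ 2 =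
          ∑ k, β a k (∑ i, x i • e i) (∑ i, x i • e i) ^ 2 := by
      intro a x
      rw [Fintype.sum_sigma, Finset.sum_eq_single a]
      · refine Finset.sum_congr rfl fun k _ => ?_
        rw [← (hβ a k).expand (fun i => e i) x]
        unfold qd
        simp [hB]
      · intro a' _ ha'
        refine Finset.sum_eq_zero fun k _ => ?_
        unfold qd
        simp [hB, ha']
      · intro h
        exact absurd (Finset.mem_univ _) h
    have key := gm_all B (fun s i j => by
      obtain ⟨s1, s2⟩ := s
      rcases s1 with _ | a
      · rcases s2 with _ | t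
        · simp only [hB, Option.elim_none]
          rw [real_inner_comm]
        · rfl
      · rcases s2 with _ | t
        · exact (hb a).symm _ _
        · simp only [hB, Option.elim_some]
          rw [(hβ t.1 t.2).symm]) (fun i x => by
      rcases i with _ | a
      · rw [hq1]
        simp only [hq2]
        have : 0 ≤ ∑ i, x i ^ 2 := Finset.sum_nonneg fun _ _ => sq_nonneg _
        refine ⟨by positivity, ?_⟩
        simp
        positivity
      · rw [hq3, hq4]
        exact hc a _) (fun x hx => by
      rw [Fintype.sum_option, hq1]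
      have h1 : 0 < ∑ i, x i ^ 2 := by
        obtain ⟨i, hi⟩ : ∃ i, x i ≠ 0 := by
          by_contra hcon
          push Not at hcon
          exact hx (funext hcon)
        exact Finset.sum_pos' (fun _ _ => sq_nonneg _) ⟨i, Finset.mem_univ i, by positivity⟩
      have h2 : 0 ≤ ∑ a, qd (B (some a, none)) x := Finset.sum_nonneg fun a _ => by
        rw [hq3]
        exact (hc a _).1
      have h3 : 0 < Real.sqrt ε := Real.sqrt_pos.2 hε
      have h4 := mul_pos h3 h1
      linarith) (adm_cp e hP hPn) (A := fun i j => A (e i) (e j))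
        (A' := fun i j => A' (e i) (e j)) (fun i j => hA.anti _ _) (fun i j => hA'.anti _ _)
    rw [gbc_eq]
    refine mul_nonneg (by positivity) (key.trans (le_of_eq ?_))
    congr 1
    funext _ i j k l
    have h1 : ∀ i j k l : Fin m × Bool, ∑ s, er s.2 * (B s i k * B s j l) =
        (ε * (inner ℝ (e i) (e k) * inner ℝ (e j) (e l))) -
        ∑ a, ((∑ t, β a t (e i) (e k) * β a t (e j) (e l)) -
          b a (e i) (e k) * b a (e j) (e l)) := by
      intro i j k l
      rw [Fintype.sum_prod_type, Fintype.sum_option, sub_eq_add_neg, ← Finset.sum_neg_distrib]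
      congr 1
      · rw [Fintype.sum_option]
        simp only [hB, er, Option.elim_none, Option.elim_some, mul_zero, Finset.sum_const_zero,
          add_zero]
        linear_combination (inner ℝ (e i) (e k) * inner ℝ (e j) (e l)) * hε2
      · refine Finset.sum_congr rfl fun a _ => ?_
        rw [Fintype.sum_option, Fintype.sum_sigma, Finset.sum_eq_single a]
        · simp only [hB, er, Option.elim_none, Option.elim_some, if_true, one_mul, neg_one_mul,
            Finset.sum_neg_distrib]
          ring
        · intro a' _ ha'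
          refine Finset.sum_eq_zero fun k _ => ?_
          simp [hB, ha']
        · intro h
          exact absurd (Finset.mem_univ _) h
    have h2 : ∑ s, er s.2 * (B s i k * B s j l - B s i l * B s j k) =
        (∑ s, er s.2 * (B s i k * B s j l)) - ∑ s, er s.2 * (B s i l * B s j k) := by
      rw [← Finset.sum_sub_distrib]
      exact Finset.sum_congr rfl fun s _ => by ring
    rw [h2, h1 i j k l, h1 i j l k]
    simp only [cp, negT, hS, unitT, skewCurv, scR]
    simp only [Finset.sum_sub_distrib]
    ring
  have hcont : Continuous fun ε : ℝ =>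
      (-1 : ℝ) ^ m * gbc e (fun x y z w => (∑ i, S i x y z w) - P x y z w -
        skewCurv A x y z w - skewCurv A' x y z w - ε * unitT x y z w) := by
    unfold gbc
    fun_prop
  have hlim := (hcont.tendsto 0).mono_left (nhdsWithin_le_nhds (s := Set.Ioi 0))
  simp only [zero_mul, sub_zero] at hlim
  refine ge_of_tendsto hlim ?_
  filter_upwards [self_mem_nhdsWithin] with ε hε
  exact hpos ε hε

end sign

end Pool.Agent.U908.LP
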