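import Pool.Agent.U908.LP.Cls

/-!
# The general class: pointwise bound, integrals, submanifolds
-/

set_option autoImplicit false

namespace Pool.Agent.U908.LP

open Pool.Agent.W666.GB Pool.Agent.W669.HD Pool.Agent.Y519.HB Pool.Agent.Y195.HF
open Pool.Agent.U908.LC
open Pool.Agent.N565.LZ (SecForm gaussT)

section classes

variable {V : Type} [NormedAddCommGroup V] [InnerProductSpace ℝ V]

/-- `S = ∑ T_i - P - skewCurv A - skewCurv A'`, where the `T_i` are tensors of causal type of any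
codimension or curvature tensors whose operator of the second kind is nonpositive on a hyperplane,
`P` is a curvature tensor with nonnegative curvature operator, and `A`, `A'` are skew forms. -/
def GenT (S : V → V → V → V → ℝ) : Prop :=
  ∃ (r : ℕ) (T : Fin r → V → V → V → V → ℝ) (P : V → V → V → V → ℝ) (A A' : V → V → ℝ),
    (∀ i, Summand (T i)) ∧ AlgCurv P ∧ OpNonneg P ∧ SkewForm A ∧ SkewForm A' ∧
    ∀ x y z w, S x y z w = (∑ i, T i x y z w) - P x y z w - skewCurv A x y z w -
      skewCurv A' x y z w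

/-- Blocks of any dimensions which carry such tensors, minus squares `(x ∧ y)²` with `x` in one
block and `y` in one block, minus `δ` times the tensor of constant curvature one. -/
def GenBlocks (δ : ℝ) (R : V → V → V → V → ℝ) : Prop :=
  ∃ (r : ℕ) (U : Fin r → Submodule ℝ V) (S : Fin r → V → V → V → V → ℝ) (n : ℕ)
    (x y : Fin n → V) (p q : Fin n → Fin r), OrthSum U ∧ (∀ i, LivesOn (U i) (S i)) ∧
    (∀ i, GenT (S i)) ∧ (∀ k, x k ∈ U (p k)) ∧ (∀ k, y k ∈ U (q k)) ∧
    ∀ a b c d, R a b c d = (∑ i, S i a b c d) - (∑ k, sqDec (x k) (y k) a b c d) -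
      δ * unitT a b c d

theorem GenT.curv {S : V → V → V → V → ℝ} (h : GenT S) : AlgCurv S := by
  obtain ⟨r, T, P, A, A', hT, hP, -, hA, hA', hS⟩ := h
  choose N hN using fun i => (hT i).causal
  have h1 := sub_curv (sub_curv (sub_curv (sum_curv fun i => (hN i).curv) hP) hA.curv) hA'.curv
  have h2 : S = fun a b c d => ((∑ i, T i a b c d) - P a b c d - skewCurv A a b c d) -
      skewCurv A' a b c d := by
    funext a b c d
    exact hS a b c d
  rw [h2]
  exact h1

theorem GenT.sign {S : V → V → V → V → ℝ} (h : GenT S) {k : ℕ} (E : Submodule ℝ V)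
    (e : OrthonormalBasis (Fin k × Bool) ℝ E) :
    0 ≤ (-1) ^ k * gbc e (fun x y z w : E => S x y z w) := by
  obtain ⟨r, T, P, A, A', hT, hP, hPn, hA, hA', hS⟩ := h
  choose N hN using fun i => (hT i).causal
  have h1 := all_sign e (fun i => (hN i).restrict E)
    (P := fun x y z w : E => P x y z w) ⟨fun _ _ _ _ _ => hP.add _ _ _ _ _,
      fun _ _ _ _ _ => hP.smul _ _ _ _ _, fun _ _ _ _ => hP.anti _ _ _ _,
      fun _ _ _ _ => hP.pair _ _ _ _, fun _ _ _ _ => hP.bianchi _ _ _ _⟩
    (fun n x y => hPn n (fun a => x a) (fun a => y a))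
    (A := fun x y : E => A x y) ⟨fun _ _ _ => hA.add _ _ _, fun _ _ _ => hA.smul _ _ _,
      fun _ _ => hA.anti _ _⟩
    (A' := fun x y : E => A' x y) ⟨fun _ _ _ => hA'.add _ _ _, fun _ _ _ => hA'.smul _ _ _,
      fun _ _ => hA'.anti _ _⟩
  have h2 : (fun x y z w : E => S x y z w) = fun x y z w : E =>
      (∑ i, T i x y z w) - P x y z w - skewCurv (fun x y : E => A x y) x y z w -
        skewCurv (fun x y : E => A' x y) x y z w := by
    funext x y z w
    exact hS x y z w
  rw [h2]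
  exact h1

theorem GenBlocks.hopf {δ : ℝ} {R : V → V → V → V → ℝ} (h : GenBlocks δ R) :
    HopfBlocks δ R := by
  obtain ⟨r, U, S, n, x, y, p, q, h1, h2, h3, h4, h5, h6⟩ := h
  exact ⟨r, U, S, n, x, y, p, q, h1, fun i => (h3 i).curv, h2,
    fun i k E _ e => (h3 i).sign E e, h4, h5, h6⟩

/-- one block -/
theorem GenT.blocks [FiniteDimensional ℝ V] {δ : ℝ} {S R : V → V → V → V → ℝ} (h : GenT S)
    (hR : ∀ x y z w, R x y z w = S x y z w - δ * unitT x y z w) : GenBlocks δ R := by
  refine ⟨1, fun _ => ⊤, fun _ => S, 0, fun k => k.elim0, fun k => k.elim0, fun _ => 0,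
    fun _ => 0, ⟨?_, ciSup_const⟩, ?_, fun _ => h, fun k => k.elim0, fun k => k.elim0, ?_⟩
  · intro i j hij
    exact absurd (Subsingleton.elim i j) hij
  · intro _ x hx y z w
    rw [Submodule.top_orthogonal_eq_bot, Submodule.mem_bot] at hx
    rw [hx]
    have h1 := h.curv.smul 0 0 y z w
    rwa [zero_smul, zero_mul] at h1
  · intro a b c d
    rw [hR]
    simp

/-- **The pointwise bound.** -/
theorem gen_bound {m : ℕ} (e : OrthonormalBasis (Fin m × Bool) ℝ V) {δ : ℝ} (hδ : 0 ≤ δ)
    {R : V → V → V → V → ℝ} (h : GenBlocks δ R) : roundGB m δ ≤ (-1) ^ m * gbc e R :=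
  cls_bound e hδ (Or.inl h.hopf)

/-- Integrated form. -/
theorem field_gen {m : ℕ} {M : Type} [MeasurableSpace M] (μ : MeasureTheory.Measure M)
    (K : CurvField m M) (h : ∀ p, GenBlocks 0 (K.R p)) :
    0 ≤ (-1) ^ m * ∫ p, K.gb p ∂μ :=
  field_cls μ K fun p => Or.inl (h p).hopf

/-- Integrated form with a constant curvature part. -/
theorem field_genδ {m : ℕ} {M : Type} [MeasurableSpace M] (μ : MeasureTheory.Measure M)
    [MeasureTheory.IsFiniteMeasure μ] (K : CurvField m M) (hi : MeasureTheory.Integrable K.gb μ)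
    {δ : ℝ} (hδ : 0 ≤ δ) (h : ∀ p, GenBlocks δ (K.R p)) :
    roundGB m δ * μ.real Set.univ ≤ (-1) ^ m * ∫ p, K.gb p ∂μ :=
  field_clsδ μ K hi hδ fun p => Or.inl (h p).hopf

end classes

section sub

variable {Z W : Type} [NormedAddCommGroup Z] [InnerProductSpace ℝ Z] [NormedAddCommGroup W]
  [InnerProductSpace ℝ W]

/-- The Gauss equation: the curvature tensor of a submanifold with tangent space `E` and second
fundamental form `β` in a space with curvature tensor `Ra`. -/
noncomputable def subR (Ra : Z → Z → Z → Z → ℝ) (E : Submodule ℝ Z) (β : E → E → W)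
    (x y z w : E) : ℝ :=
  Ra x y z w + inner ℝ (β x z) (β y w) - inner ℝ (β x w) (β y z)

/-- **Submanifolds of any codimension.** -/
theorem sub_gen [FiniteDimensional ℝ W] {Ra : Z → Z → Z → Z → ℝ} (hRa : AlgCurv Ra)
    (E : Submodule ℝ Z) [FiniteDimensional ℝ E] {β : E → E → W} (hs : SecForm β) {c δ : ℝ}
    (hc : δ ≤ c) (hT : TwoSkew c Ra) (hβ : ∀ x, ‖β x x‖ ^ 2 ≤ (c - δ) * ‖x‖ ^ 4) :
    GenBlocks δ (subR Ra E β) := by
  obtain ⟨A, A', hA, hA', hn⟩ := hT
  set P := negT (addT (addT (addT Ra fun x y z w => c * unitT x y z w) (skewCurv A))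
    (skewCurv A')) with hP
  have hPc : AlgCurv P := neg_curv (add_curv (add_curv (add_curv hRa (unit_curv c)) hA.curv)
    hA'.curv)
  have h1 := space_form_any hs hc hβ
  obtain ⟨r, N, S, hS, hR⟩ := h1
  refine GenT.blocks (S := fun x y z w : E => (∑ i, S i x y z w) - P x y z w -
    skewCurv (fun x y : E => A x y) x y z w - skewCurv (fun x y : E => A' x y) x y z w)
    ⟨r, S, fun x y z w : E => P x y z w, fun x y : E => A x y, fun x y : E => A' x y,
      fun i => Or.inl ⟨N i, hS i⟩, ⟨fun _ _ _ _ _ => hPc.add _ _ _ _ _,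
      fun _ _ _ _ _ => hPc.smul _ _ _ _ _, fun _ _ _ _ => hPc.anti _ _ _ _,
      fun _ _ _ _ => hPc.pair _ _ _ _, fun _ _ _ _ => hPc.bianchi _ _ _ _⟩,
      fun n x y => hn n (fun a => x a) (fun a => y a),
      ⟨fun _ _ _ => hA.add _ _ _, fun _ _ _ => hA.smul _ _ _, fun _ _ => hA.anti _ _⟩,
      ⟨fun _ _ _ => hA'.add _ _ _, fun _ _ _ => hA'.smul _ _ _, fun _ _ => hA'.anti _ _⟩,
      fun _ _ _ _ => rfl⟩ fun x y z w => ?_
  have h2 := hR x y z w
  simp only [gaussT] at h2
  have h3 : (∑ i, S i x y z w) = inner ℝ (β x z) (β y w) - inner ℝ (β x w) (β y z) -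
      c * unitT x y z w + δ * unitT x y z w := by
    rw [h2]
    ring
  simp only [h3, hP, negT, addT, subR, skewCurv, unitT, Submodule.coe_inner]
  ring

end sub

end Pool.Agent.U908.LP
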