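import Pool.Agent.U908.LC.Pen
import Pool.Agent.U908.LC.Flow

/-!
# Polynomials `L(T (∑ X_s x_s)^N)`
-/

set_option autoImplicit false

namespace Pool.Agent.U908.LP

open MvPolynomial Pool.Agent.U908.LC Pool.Agent.Y489.SM

section gen

variable {S : Type} [Fintype S] [DecidableEq S] {A : Type} [CommRing A] [Algebra ℂ A]

/-- the polynomial `L(T (∑ X_s x_s)^N)` -/
noncomputable def QF (x : S → A) (L : A →ₗ[ℂ] ℂ) (N : ℕ) (T : A) : MvPolynomial S ℂ :=
  PF (fun β : Fin N → S => L (T * ∏ j, x (β j)))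

omit [DecidableEq S] in
theorem eval_QF (x : S → A) (L : A →ₗ[ℂ] ℂ) (N : ℕ) (T : A) (z : S → ℂ) :
    eval z (QF x L N T) = L (T * (∑ s, z s • x s) ^ N) := by
  unfold QF PF
  rw [Fintype.sum_pow, Finset.mul_sum, map_sum, map_sum]
  refine Finset.sum_congr rfl fun β _ => ?_
  rw [map_mul, eval_C, map_prod]
  simp only [eval_X]
  have : T * ∏ i, z (β i) • x (β i) = (∏ i, z (β i)) • (T * ∏ j, x (β j)) := by
    simp only [Algebra.smul_def, Finset.prod_mul_distrib, map_prod]
    ring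
  rw [this, map_smul, smul_eq_mul, mul_comm]

/-- numbering -/
def eO (N : ℕ) : Option (Option (Fin N)) ≃ Fin (N + 2) :=
  (Equiv.optionCongr (_root_.finSuccEquiv N).symm).trans (_root_.finSuccEquiv (N + 1)).symm

omit [DecidableEq S] in
theorem QF_option (x : S → A) (L : A →ₗ[ℂ] ℂ) (N : ℕ) (T : A) :
    QF x L (N + 2) T = PF (fun β : Option (Option (Fin N)) → S => L (T * ∏ j, x (β j))) := by
  unfold QF
  rw [PF_equiv (eO N)]
  congr 1
  funext β
  rw [Equiv.prod_comp (eO N).symm (fun o => x (β o))]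

theorem lap_QF (x : S → A) (L : A →ₗ[ℂ] ℂ) (N : ℕ) (T : A) (c : S → ℂ) :
    lap c (QF x L (N + 2) T) =
      (((N + 2) * (N + 1) : ℕ) : ℂ) • QF x L N (T * ∑ s, c s • x s ^ 2) := by
  rw [QF_option, lap_PF]
  · rw [Fintype.card_fin]
    congr 1
    unfold QF
    congr 1
    funext β
    have h1 : T * (∑ s, c s • x s ^ 2) * ∏ j, x (β j) =
        ∑ s, c s • (T * (x s * (x s * ∏ j, x (β j)))) := by
      rw [Finset.mul_sum, Finset.sum_mul]
      refine Finset.sum_congr rfl fun s _ => ?_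
      simp only [Algebra.smul_def]
      ring
    rw [h1, map_sum]
    refine Finset.sum_congr rfl fun s _ => ?_
    rw [map_smul, smul_eq_mul, Fintype.prod_option, Fintype.prod_option]
    rfl
  · intro π β
    beta_reduce
    rw [Equiv.prod_comp π (fun o => x (β o))]

omit [DecidableEq S] in
theorem QF_zero_deg (x : S → A) (L : A →ₗ[ℂ] ℂ) (T : A) : (QF x L 0 T).totalDegree ≤ 0 := by
  unfold QF PF
  rw [Fintype.sum_unique]
  simp only [Finset.univ_eq_empty, Finset.prod_empty, mul_one]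
  exact (totalDegree_C _).le

theorem lap_pow_QF (x : S → A) (L : A →ₗ[ℂ] ℂ) (c : S → ℂ) (j : ℕ) : ∀ (n : ℕ) (T : A), j ≤ n →
    ((lap c : Module.End ℂ (MvPolynomial S ℂ)) ^ j) (QF x L (2 * n) T) =
      (((2 * n).factorial : ℂ) / ((2 * (n - j)).factorial : ℂ)) •
        QF x L (2 * (n - j)) (T * (∑ s, c s • x s ^ 2) ^ j) := by
  induction j with
  | zero =>
    intro n T _
    have h1 : ((2 * n).factorial : ℂ) ≠ 0 := by exact_mod_cast (Nat.factorial_pos _).ne'
    rw [pow_zero, Module.End.one_apply, Nat.sub_zero, div_self h1, one_smul, pow_zero, mul_one]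
  | succ j ih =>
    intro n T hj
    obtain ⟨n, rfl⟩ : ∃ k, n = k + 1 := ⟨n - 1, by omega⟩
    have h0 : 2 * (n + 1) = 2 * n + 2 := by ring
    rw [pow_succ, Module.End.mul_apply, h0, lap_QF, map_smul, ih n _ (by omega), smul_smul]
    have h2 : n + 1 - (j + 1) = n - j := by omega
    rw [h2]
    congr 1
    · have h3 : (2 * n + 2).factorial = (2 * n + 2) * ((2 * n + 1) * (2 * n).factorial) := by
        rw [show 2 * n + 2 = (2 * n + 1) + 1 by ring, Nat.factorial_succ, Nat.factorial_succ]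
      rw [h3]
      push_cast
      ring
    · congr 1
      rw [pow_succ']
      ring

theorem lap_pow_QF_zero (x : S → A) (L : A →ₗ[ℂ] ℂ) (c : S → ℂ) (j n : ℕ) (T : A) (h : n < j) :
    ((lap c : Module.End ℂ (MvPolynomial S ℂ)) ^ j) (QF x L (2 * n) T) = 0 := by
  obtain ⟨k, rfl⟩ : ∃ k, j = k + (1 + n) := ⟨j - 1 - n, by omega⟩
  rw [pow_add, Module.End.mul_apply, pow_add, pow_one, Module.End.mul_apply,
    lap_pow_QF x L c n n T le_rfl, Nat.sub_self, map_smul, mul_zero,
    lap_of_totalDegree_zero c _ (QF_zero_deg x L _), smul_zero, map_zero]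

/-- the polynomial `L((U + ∑ X_s x_s)^(2 m))`, the terms of odd degree in `U` left out -/
noncomputable def GF (x : S → A) (L : A →ₗ[ℂ] ℂ) (m : ℕ) (U : A) : MvPolynomial S ℂ :=
  ∑ k ∈ Finset.range (m + 1), ((2 * m).choose (2 * k) : ℂ) • QF x L (2 * (m - k)) (U ^ (2 * k))

theorem eval_flow_GF (x : S → A) (L : A →ₗ[ℂ] ℂ) (m : ℕ) (U : A) (c : S → ℂ) (τ : ℂ)
    (z : S → ℂ) : eval z (flow (2 * m + 1) c τ (GF x L m U)) =
      ∑ k ∈ Finset.range (m + 1), ∑ j ∈ Finset.range (m - k + 1),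
        ((2 * m).factorial / ((2 * k).factorial * j.factorial * (2 * (m - k - j)).factorial) : ℂ) *
          ((-τ) ^ j * L (U ^ (2 * k) * (∑ s, c s • x s ^ 2) ^ j *
            (∑ s, z s • x s) ^ (2 * (m - k - j)))) := by
  unfold GF
  rw [map_sum, map_sum]
  refine Finset.sum_congr rfl fun k hk => ?_
  rw [Finset.mem_range] at hk
  rw [map_smul, smul_eval, flow_apply, map_sum]
  have h1 : Finset.range (m - k + 1) ⊆ Finset.range (2 * m + 1) := Finset.range_mono (by omega)
  rw [← Finset.sum_subset h1 (fun j _ hj => by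
    rw [Finset.mem_range] at hj
    rw [lap_pow_QF_zero x L c j (m - k) _ (by omega), smul_zero, map_zero]), Finset.mul_sum]
  refine Finset.sum_congr rfl fun j hj => ?_
  rw [Finset.mem_range] at hj
  rw [lap_pow_QF x L c j (m - k) _ (by omega), smul_smul, smul_eval, eval_QF]
  have h2 : ((2 * m).choose (2 * k) : ℂ) * ((2 * k).factorial * (2 * (m - k)).factorial) =
      ((2 * m).factorial : ℂ) := by
    have h3 := Nat.choose_mul_factorial_mul_factorial (show 2 * k ≤ 2 * m by omega)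
    have h4 : 2 * m - 2 * k = 2 * (m - k) := by omega
    rw [h4] at h3
    rw [← h3]
    push_cast
    ring
  have e1 : ((2 * k).factorial : ℂ) ≠ 0 := by exact_mod_cast (Nat.factorial_pos _).ne'
  have e2 : (j.factorial : ℂ) ≠ 0 := by exact_mod_cast (Nat.factorial_pos _).ne'
  have e3 : ((2 * (m - k - j)).factorial : ℂ) ≠ 0 := by exact_mod_cast (Nat.factorial_pos _).ne'
  rw [← h2]
  field_simp

end gen

end Pool.Agent.U908.LP
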