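import Pool.Agent.U908.LP.Sharp
import Pool.Agent.Y195.HF.Posi

/-!
# The positive side
-/

set_option autoImplicit false

namespace Pool.Agent.U908.LP

open Pool.Agent.W666.GB Pool.Agent.W669.HD Pool.Agent.Y519.HB Pool.Agent.Y195.HF
open Pool.Agent.U908.LC
open Pool.Agent.N565.LZ (SecForm gaussT)

section classes

variable {V : Type} [NormedAddCommGroup V] [InnerProductSpace ℝ V]

/-- `S(x,y,z,w) = (b(x,z) b(y,w) - b(x,w) b(y,z)) - ∑ (β_k(x,z) β_k(y,w) - β_k(x,w) β_k(y,z))` for
symmetric bilinear forms `b, β_1, …, β_N` such that `(b(x,x), β_1(x,x), …, β_N(x,x))` lies in the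
closed future light cone for all `x`. -/
def TimelikeT (N : ℕ) (S : V → V → V → V → ℝ) : Prop :=
  ∃ (b : V → V → ℝ) (β : Fin N → V → V → ℝ), SymBil b ∧ (∀ k, SymBil (β k)) ∧
    (∀ x, 0 ≤ b x x ∧ ∑ k, β k x x ^ 2 ≤ b x x ^ 2) ∧
    ∀ x y z w, S x y z w = (b x z * b y w - b x w * b y z) -
      ∑ k, (β k x z * β k y w - β k x w * β k y z)

/-- On the space of symmetric matrices `h` which satisfy one linear condition `∑ h_ab g_ab = 0`, the
quadratic form of the curvature operator of the second kind is nonnegative. -/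
def SecondNonneg {ι : Type} [Fintype ι] (e : OrthonormalBasis ι ℝ V) (R : V → V → V → V → ℝ) :
    Prop :=
  ∃ g : ι → ι → ℝ, ∀ h : ι → ι → ℝ, (∀ a b, h a b = h b a) → ∑ a, ∑ b, h a b * g a b = 0 →
    0 ≤ secondKind e R h

/-- The admitted summands: tensors of timelike type, and curvature tensors whose curvature operator
of the second kind is nonnegative on some hyperplane of the space of symmetric tensors. -/
def PosSummand (S : V → V → V → V → ℝ) : Prop :=
  (∃ N, TimelikeT N S) ∨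
    (AlgCurv S ∧ ∃ (n : ℕ) (e : OrthonormalBasis (Fin n) ℝ V), SecondNonneg e S)

/-- `S = ∑ T_i + P + skewCurv A + skewCurv A'` with admitted summands `T_i`, a curvature tensor `P`
with nonnegative curvature operator and skew forms `A`, `A'`. -/
def PosT (S : V → V → V → V → ℝ) : Prop :=
  ∃ (r : ℕ) (T : Fin r → V → V → V → V → ℝ) (P : V → V → V → V → ℝ) (A A' : V → V → ℝ),
    (∀ i, PosSummand (T i)) ∧ AlgCurv P ∧ OpNonneg P ∧ SkewForm A ∧ SkewForm A' ∧
    ∀ x y z w, S x y z w = (∑ i, T i x y z w) + P x y z w + skewCurv A x y z w +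
      skewCurv A' x y z w

/-- Blocks of any dimensions which carry such tensors, plus squares `(x ∧ y)²` with `x` in one
block and `y` in one block, plus `δ` times the tensor of constant curvature one. -/
def PosBlocks (δ : ℝ) (R : V → V → V → V → ℝ) : Prop :=
  ∃ (r : ℕ) (U : Fin r → Submodule ℝ V) (S : Fin r → V → V → V → V → ℝ) (n : ℕ)
    (x y : Fin n → V) (p q : Fin n → Fin r), OrthSum U ∧ (∀ i, LivesOn (U i) (S i)) ∧
    (∀ i, PosT (S i)) ∧ (∀ k, x k ∈ U (p k)) ∧ (∀ k, y k ∈ U (q k)) ∧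
    ∀ a b c d, R a b c d = (∑ i, S i a b c d) + (∑ k, sqDec (x k) (y k) a b c d) +
      δ * unitT a b c d

theorem secondKind_neg {ι : Type} [Fintype ι] (e : OrthonormalBasis ι ℝ V)
    (R : V → V → V → V → ℝ) (h : ι → ι → ℝ) :
    secondKind e (negT R) h = -secondKind e R h := by
  unfold secondKind negT
  simp only [mul_neg, Finset.sum_neg_distrib]

theorem PosSummand.neg {S : V → V → V → V → ℝ} (h : PosSummand S) : Summand (negT S) := by
  rcases h with ⟨N, b, β, hb, hβ, hc, hS⟩ | ⟨hS, n, e, g, hg⟩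
  · refine Or.inl ⟨N, b, β, hb, hβ, hc, fun x y z w => ?_⟩
    simp only [negT, hS]
    ring
  · refine Or.inr ⟨neg_curv hS, n, e, g, fun h h1 h2 => ?_⟩
    rw [secondKind_neg]
    linarith [hg h h1 h2]

theorem PosT.neg {S : V → V → V → V → ℝ} (h : PosT S) : GenT (negT S) := by
  obtain ⟨r, T, P, A, A', hT, hP, hPn, hA, hA', hS⟩ := h
  refine ⟨r, fun i => negT (T i), P, A, A', fun i => (hT i).neg, hP, hPn, hA, hA',
    fun x y z w => ?_⟩
  simp only [negT, hS, Finset.sum_neg_distrib]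
  ring

theorem PosBlocks.neg {δ : ℝ} {R : V → V → V → V → ℝ} (h : PosBlocks δ R) :
    GenBlocks δ (negT R) := by
  obtain ⟨r, U, S, n, x, y, p, q, h1, h2, h3, h4, h5, h6⟩ := h
  refine ⟨r, U, fun i => negT (S i), n, x, y, p, q, h1, fun i a ha b c d => ?_,
    fun i => (h3 i).neg, h4, h5, fun a b c d => ?_⟩
  · simp only [negT, h2 i a ha b c d, neg_zero]
  · simp only [negT, h6, Finset.sum_neg_distrib]
    ring

/-- **The pointwise bound.** -/
theorem pos_bound {m : ℕ} (e : OrthonormalBasis (Fin m × Bool) ℝ V) {δ : ℝ} (hδ : 0 ≤ δ)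
    {R : V → V → V → V → ℝ} (h : PosBlocks δ R) : roundGB m δ ≤ gbc e R := by
  rw [← gbc_negT e R]
  exact gen_bound e hδ h.neg

/-- Integrated form. -/
theorem field_plus {m : ℕ} {M : Type} [MeasurableSpace M] (μ : MeasureTheory.Measure M)
    (K : CurvField m M) (δ : M → ℝ) (h : ∀ p, 0 ≤ δ p ∧ PosBlocks (δ p) (K.R p)) :
    0 ≤ ∫ p, K.gb p ∂μ ∧
      (MeasureTheory.Integrable K.gb μ → μ {p | 0 < δ p} ≠ 0 → 0 < ∫ p, K.gb p ∂μ) := by
  have h1 : ∀ p, roundGB m (δ p) ≤ K.gb p := fun p => pos_bound (K.e p) (h p).1 (h p).2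
  have h0 : ∀ p, 0 ≤ K.gb p := fun p => (roundGB_nonneg (h p).1).trans (h1 p)
  refine ⟨MeasureTheory.integral_nonneg h0, fun hi hμ => ?_⟩
  rw [MeasureTheory.integral_pos_iff_support_of_nonneg h0 hi]
  refine lt_of_lt_of_le (pos_iff_ne_zero.mpr hμ) (MeasureTheory.measure_mono fun p hp => ?_)
  have h2 := roundGB_pos (m := m) (show 0 < δ p from hp)
  exact (h2.trans_le (h1 p)).ne'

end classes

section sub

variable {Z W : Type} [NormedAddCommGroup Z] [InnerProductSpace ℝ Z] [NormedAddCommGroup W]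
  [InnerProductSpace ℝ W]

/-- The Gauss equation of a spacelike submanifold with tangent space `E` and timelike (negative
definite) normal space, second fundamental form `β`, in a space whose curvature tensor is `Ra` on the
tangent space. -/
noncomputable def spaceR (Ra : Z → Z → Z → Z → ℝ) (E : Submodule ℝ Z) (β : E → E → W)
    (x y z w : E) : ℝ :=
  Ra x y z w - (inner ℝ (β x z) (β y w) - inner ℝ (β x w) (β y z))

/-- **Spacelike submanifolds of any codimension.** -/
theorem space_pos [FiniteDimensional ℝ W] {Ra : Z → Z → Z → Z → ℝ} (hRa : AlgCurv Ra)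
    (E : Submodule ℝ Z) [FiniteDimensional ℝ E] {β : E → E → W} (hs : SecForm β) {c δ : ℝ}
    (hc : δ ≤ c) (hT : TwoSkewPos c Ra) (hβ : ∀ x, ‖β x x‖ ^ 2 ≤ (c - δ) * ‖x‖ ^ 4) :
    PosBlocks δ (spaceR Ra E β) := by
  obtain ⟨A, A', hA, hA', hn⟩ := hT
  set P := addT Ra (negT (addT (addT (fun x y z w => c * unitT x y z w) (skewCurv A))
    (skewCurv A'))) with hP
  have hPc : AlgCurv P := add_curv hRa (neg_curv (add_curv (add_curv (unit_curv c) hA.curv)
    hA'.curv))
  have h1 := space_form_any hs hc hβ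
  obtain ⟨r, N, S, hS, hR⟩ := h1
  have hTT : ∀ i, TimelikeT (N i) (fun x y z w => -S i x y z w) := by
    intro i
    obtain ⟨b, β', hb, hβ', hc', hSi⟩ := hS i
    refine ⟨b, β', hb, hβ', hc', fun x y z w => ?_⟩
    beta_reduce
    rw [hSi]
    ring
  have hPT : PosT (fun x y z w : E => (∑ i, -S i x y z w) + P x y z w +
      skewCurv (fun x y : E => A x y) x y z w + skewCurv (fun x y : E => A' x y) x y z w) :=
    ⟨r, fun i x y z w => -S i x y z w, fun x y z w : E => P x y z w, fun x y : E => A x y,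
      fun x y : E => A' x y, fun i => Or.inl ⟨N i, hTT i⟩,
      ⟨fun _ _ _ _ _ => hPc.add _ _ _ _ _,
      fun _ _ _ _ _ => hPc.smul _ _ _ _ _, fun _ _ _ _ => hPc.anti _ _ _ _,
      fun _ _ _ _ => hPc.pair _ _ _ _, fun _ _ _ _ => hPc.bianchi _ _ _ _⟩,
      fun n x y => hn n (fun a => x a) (fun a => y a),
      ⟨fun _ _ _ => hA.add _ _ _, fun _ _ _ => hA.smul _ _ _, fun _ _ => hA.anti _ _⟩,
      ⟨fun _ _ _ => hA'.add _ _ _, fun _ _ _ => hA'.smul _ _ _, fun _ _ => hA'.anti _ _⟩,
      fun _ _ _ _ => rfl⟩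
  refine ⟨1, fun _ => ⊤, fun _ => _, 0, fun k => k.elim0, fun k => k.elim0, fun _ => 0,
    fun _ => 0, ⟨?_, ciSup_const⟩, ?_, fun _ => hPT, fun k => k.elim0, fun k => k.elim0, ?_⟩
  · intro i j hij
    exact absurd (Subsingleton.elim i j) hij
  · intro _ x hx y z w
    rw [Submodule.top_orthogonal_eq_bot, Submodule.mem_bot] at hx
    rw [hx]
    have h1 := hPT.neg.curv.smul 0 0 y z w
    rw [zero_smul, zero_mul] at h1
    simp only [negT] at h1
    linarith
  · intro x y z w
    have h2 := hR x y z w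
    simp only [gaussT] at h2
    have h3 : (∑ i, S i x y z w) = inner ℝ (β x z) (β y w) - inner ℝ (β x w) (β y z) -
        c * unitT x y z w + δ * unitT x y z w := by
      rw [h2]
      ring
    simp only [Finset.univ_unique, Finset.sum_singleton, Finset.univ_eq_empty, Finset.sum_empty,
      Finset.sum_neg_distrib, h3, hP, negT, addT, spaceR, skewCurv, unitT, Submodule.coe_inner]
    ring

/-- The curvature tensor of a spacelike submanifold of a space of constant curvature `c` with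
timelike normal bundle. -/
noncomputable def spaceT {V : Type} [NormedAddCommGroup V] [InnerProductSpace ℝ V] (c : ℝ)
    (β : V → V → W) (x y z w : V) : ℝ :=
  c * unitT x y z w - (inner ℝ (β x z) (β y w) - inner ℝ (β x w) (β y z))

theorem sharp_pos {m : ℕ} {V : Type} [NormedAddCommGroup V] [InnerProductSpace ℝ V]
    (e : OrthonormalBasis (Fin m × Bool) ℝ V) (hm : 1 ≤ m) {c c' : ℝ}
    (hc : 0 < c) (hcc : c < c') : ∃ β : V → V → ℝ, SecForm β ∧
      (∀ x, ‖β x x‖ ^ 2 ≤ c' * ‖x‖ ^ 4) ∧ gbc e (spaceT c β) < 0 := by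
  obtain ⟨β, h1, h2, h3⟩ := sharp_bound e hm hc hcc
  refine ⟨β, h1, h2, ?_⟩
  rw [← gbc_negT e]
  have : negT (spaceT c β) = gaussT c β := by
    funext x y z w
    simp only [negT, spaceT, gaussT]
    ring
  rw [this]
  exact h3

end sub

end Pool.Agent.U908.LP
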