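import Pool.Agent.U908.LP.NonV
import Pool.Agent.Y195.HF.Pos

/-!
# Quaternionic hermitian matrices with positive imaginary part are nondegenerate
-/

set_option autoImplicit false

namespace Pool.Agent.U908.LP

open Pool.Agent.Y195.HF

section quad

variable {J : Type} [Fintype J]

theorem im_quad (A P : J → J → ℝ) (hA : ∀ i j, A i j = A j i) (v : J → ℂ) :
    (∑ i, (starRingEnd ℂ) (v i) *
      (∑ j, ((A i j : ℂ) + Complex.I * (P i j : ℂ)) * v j)).im =
      (∑ i, ∑ j, (v i).re * P i j * (v j).re) + ∑ i, ∑ j, (v i).im * P i j * (v j).im := by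
  rw [Complex.im_sum]
  have h3 : ∀ i, ((starRingEnd ℂ) (v i) *
      (∑ j, ((A i j : ℂ) + Complex.I * (P i j : ℂ)) * v j)).im =
      ∑ j, ((v i).re * P i j * (v j).re + (v i).im * P i j * (v j).im +
        (A i j * ((v i).re * (v j).im) - A i j * ((v i).im * (v j).re))) := by
    intro i
    rw [Finset.mul_sum, Complex.im_sum]
    refine Finset.sum_congr rfl fun j _ => ?_
    simp only [Complex.mul_im, Complex.mul_re, Complex.conj_re, Complex.conj_im, Complex.add_re,
      Complex.add_im, Complex.ofReal_re, Complex.ofReal_im, Complex.I_re, Complex.I_im]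
    ring
  rw [Finset.sum_congr rfl fun i _ => h3 i]
  simp only [Finset.sum_add_distrib, Finset.sum_sub_distrib]
  have h4 : ∑ i, ∑ j, A i j * ((v i).im * (v j).re) = ∑ i, ∑ j, A i j * ((v i).re * (v j).im) := by
    rw [Finset.sum_comm]
    refine Finset.sum_congr rfl fun i _ => Finset.sum_congr rfl fun j _ => ?_
    rw [hA j i]
    ring
  rw [h4, sub_self, add_zero]

theorem skew_real (C : J → J → ℂ) (hC : ∀ i j, C j i = -C i j) (a b : J → ℂ) :
    ((∑ i, (starRingEnd ℂ) (b i) * (∑ j, C i j * a j)) -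
      ∑ i, (starRingEnd ℂ) (a i) * (∑ j, (starRingEnd ℂ) (C i j) * b j)).im = 0 := by
  have h1 : ∑ i, (starRingEnd ℂ) (a i) * (∑ j, (starRingEnd ℂ) (C i j) * b j) =
      -(starRingEnd ℂ) (∑ i, (starRingEnd ℂ) (b i) * (∑ j, C i j * a j)) := by
    simp only [map_sum, map_mul, Complex.conj_conj, Finset.mul_sum]
    rw [Finset.sum_comm, ← Finset.sum_neg_distrib]
    refine Finset.sum_congr rfl fun i _ => ?_
    rw [← Finset.sum_neg_distrib]
    refine Finset.sum_congr rfl fun j _ => ?_
    rw [hC i j, map_neg]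
    ring
  rw [h1, sub_neg_eq_add, Complex.add_im, Complex.conj_im]
  ring

theorem quad_zero (C : J → J → ℂ) (hC : ∀ i j, C j i = -C i j) (A P : J → J → ℝ)
    (hA : ∀ i j, A i j = A j i)
    (hP : ∀ x : J → ℝ, x ≠ 0 → 0 < ∑ i, ∑ j, x i * P i j * x j) (a b : J → ℂ)
    (h1 : ∀ i, 2 * (∑ j, C i j * a j) +
      ∑ j, ((A i j : ℂ) + Complex.I * (P i j : ℂ)) * b j = 0)
    (h2 : ∀ i, (∑ j, ((A i j : ℂ) + Complex.I * (P i j : ℂ)) * a j) -
      2 * (∑ j, (starRingEnd ℂ) (C i j) * b j) = 0) : a = 0 ∧ b = 0 := by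
  have e1 : ∑ i, (starRingEnd ℂ) (b i) * (2 * (∑ j, C i j * a j) +
      ∑ j, ((A i j : ℂ) + Complex.I * (P i j : ℂ)) * b j) = 0 :=
    Finset.sum_eq_zero fun i _ => by rw [h1, mul_zero]
  have e2 : ∑ i, (starRingEnd ℂ) (a i) * ((∑ j, ((A i j : ℂ) + Complex.I * (P i j : ℂ)) * a j) -
      2 * (∑ j, (starRingEnd ℂ) (C i j) * b j)) = 0 :=
    Finset.sum_eq_zero fun i _ => by rw [h2, mul_zero]
  have e3 : (∑ i, (starRingEnd ℂ) (b i) *
      (∑ j, ((A i j : ℂ) + Complex.I * (P i j : ℂ)) * b j)) +
      (∑ i, (starRingEnd ℂ) (a i) *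
      (∑ j, ((A i j : ℂ) + Complex.I * (P i j : ℂ)) * a j)) +
      2 * ((∑ i, (starRingEnd ℂ) (b i) * (∑ j, C i j * a j)) -
      ∑ i, (starRingEnd ℂ) (a i) * (∑ j, (starRingEnd ℂ) (C i j) * b j)) = 0 := by
    have e4 : ∀ i, (starRingEnd ℂ) (b i) * (2 * (∑ j, C i j * a j) +
      ∑ j, ((A i j : ℂ) + Complex.I * (P i j : ℂ)) * b j) =
      2 * ((starRingEnd ℂ) (b i) * (∑ j, C i j * a j)) + (starRingEnd ℂ) (b i) *
      (∑ j, ((A i j : ℂ) + Complex.I * (P i j : ℂ)) * b j) := fun i => by ring
    have e5 : ∀ i, (starRingEnd ℂ) (a i) * ((∑ j, ((A i j : ℂ) + Complex.I * (P i j : ℂ)) * a j) -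
      2 * (∑ j, (starRingEnd ℂ) (C i j) * b j)) = (starRingEnd ℂ) (a i) *
      (∑ j, ((A i j : ℂ) + Complex.I * (P i j : ℂ)) * a j) -
      2 * ((starRingEnd ℂ) (a i) * (∑ j, (starRingEnd ℂ) (C i j) * b j)) := fun i => by ring
    rw [Finset.sum_congr rfl fun i _ => e4 i, Finset.sum_add_distrib, ← Finset.mul_sum] at e1
    rw [Finset.sum_congr rfl fun i _ => e5 i, Finset.sum_sub_distrib, ← Finset.mul_sum] at e2
    linear_combination e1 + e2
  have e6 := congrArg Complex.im e3
  rw [Complex.add_im, Complex.add_im, Complex.mul_im, skew_real C hC a b, Complex.zero_im,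
    im_quad A P hA, im_quad A P hA] at e6
  simp only [mul_zero, Complex.im_ofNat, zero_mul, add_zero] at e6
  have hge : ∀ z : J → ℝ, 0 ≤ ∑ i, ∑ j, z i * P i j * z j := by
    intro z
    by_cases hz : z = 0
    · subst hz
      simp
    · exact (hP z hz).le
  have g1 := hge fun i => (a i).re
  have g2 := hge fun i => (a i).im
  have g3 := hge fun i => (b i).re
  have g4 := hge fun i => (b i).im
  have hz : ∀ z : J → ℝ, ∑ i, ∑ j, z i * P i j * z j = 0 → z = 0 := by
    intro z hz
    by_contra hne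
    exact absurd hz (hP z hne).ne'
  have z1 := hz (fun i => (a i).re) (by linarith)
  have z2 := hz (fun i => (a i).im) (by linarith)
  have z3 := hz (fun i => (b i).re) (by linarith)
  have z4 := hz (fun i => (b i).im) (by linarith)
  exact ⟨funext fun i => Complex.ext (congrFun z1 i) (congrFun z2 i),
    funext fun i => Complex.ext (congrFun z3 i) (congrFun z4 i)⟩

end quad

section nonv

variable {m : ℕ}

/-- contraction as a linear map -/
noncomputable def alL {κ : Type} [Fintype κ] (u v : κ → I2 m → ℂ) :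
    Module.Dual ℂ (I2 m → ℂ) →ₗ[ℂ] (I2 m → ℂ) where
  toFun := al u v
  map_add' d d' := by
    unfold al
    rw [← Finset.sum_add_distrib]
    refine Finset.sum_congr rfl fun a _ => ?_
    simp only [LinearMap.add_apply, add_smul]
    abel
  map_smul' c d := by
    unfold al
    rw [RingHom.id_apply, Finset.smul_sum]
    refine Finset.sum_congr rfl fun a _ => ?_
    simp only [LinearMap.smul_apply, smul_eq_mul, mul_smul, smul_sub]

theorem al_surj {κ : Type} [Fintype κ] (u v : κ → I2 m → ℂ)
    (h : ∀ d, al u v d = 0 → d = 0) : ∀ w, ∃ d, al u v d = w := by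
  have h1 : Function.Injective (alL u v) := (injective_iff_map_eq_zero _).2 h
  have h2 : Module.finrank ℂ (Module.Dual ℂ (I2 m → ℂ)) = Module.finrank ℂ (I2 m → ℂ) :=
    Subspace.dual_finrank_eq
  exact (LinearMap.injective_iff_surjective_of_finrank_eq_finrank h2).1 h1

/-- index set -/
abbrev K3 (m : ℕ) := Fin 3 × ((Fin m × Bool) × (Fin m × Bool))

/-- first vectors -/
noncomputable def u3 (C D M : Mt m) (k : K3 m) : I2 m → ℂ :=
  if k.1 = 0 then C k.2.1 k.2.2 • th m false k.2.1
  else if k.1 = 1 then D k.2.1 k.2.2 • th m true k.2.1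
  else M k.2.1 k.2.2 • th m false k.2.1

/-- second vectors -/
noncomputable def v3 (m : ℕ) (k : K3 m) : I2 m → ℂ :=
  if k.1 = 0 then th m false k.2.2 else th m true k.2.2

theorem om_eq (C D M : Mt m) : om (u3 C D M) (v3 m) =
    ff false false C + ff true true D + ff false true M := by
  unfold om
  rw [Fintype.sum_prod_type, Fin.sum_univ_three]
  simp only [Fintype.sum_prod_type, ff, u3, v3]
  simp only [if_true, Fin.isValue, one_ne_zero, if_false, Fin.reduceEq, bv_smul_left]

theorem al_eq (C D M : Mt m) (d : Module.Dual ℂ (I2 m → ℂ)) :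
    al (u3 C D M) (v3 m) d =
      (∑ i, ∑ j, ((C i j * d (th m false i)) • th m false j -
        (d (th m false j) * C i j) • th m false i)) +
      (∑ i, ∑ j, ((D i j * d (th m true i)) • th m true j -
        (d (th m true j) * D i j) • th m true i)) +
      ∑ i, ∑ j, ((M i j * d (th m false i)) • th m true j -
        (d (th m true j) * M i j) • th m false i) := by
  unfold al
  rw [Fintype.sum_prod_type, Fin.sum_univ_three]
  simp only [Fintype.sum_prod_type, u3, v3]
  simp only [if_true, Fin.isValue, one_ne_zero, if_false, Fin.reduceEq, map_smul, smul_eq_mul,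
    smul_smul]

theorem sum_pick (x : Fin m × Bool) (f : Fin m × Bool → Fin m × Bool → ℂ) :
    (∑ i, ∑ j, if x = i then f i j else 0) = ∑ j, f x j := by
  rw [Finset.sum_comm]
  simp

theorem al_false (C D M : Mt m) (d : Module.Dual ℂ (I2 m → ℂ)) (x : Fin m × Bool) :
    al (u3 C D M) (v3 m) d (x, false) = (∑ i, C i x * d (th m false i)) -
      (∑ j, C x j * d (th m false j)) - ∑ j, M x j * d (th m true j) := by
  rw [al_eq]
  simp only [Pi.add_apply, Finset.sum_apply, Pi.sub_apply, Pi.smul_apply, smul_eq_mul, th,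
    Pi.single_apply, Prod.mk.injEq, and_true, and_false, Bool.false_eq_true,
    if_false, mul_zero, sub_zero, zero_sub, Finset.sum_const_zero, add_zero, Finset.sum_sub_distrib,
    mul_ite, mul_one]
  simp only [Finset.sum_ite_eq, Finset.mem_univ, if_true]
  rw [sum_pick x fun i j => d (Pi.single (j, false) 1) * C i j,
    sum_pick x fun i j => d (Pi.single (j, true) 1) * M i j, ← sub_eq_add_neg]
  simp only [mul_comm]

theorem al_true (C D M : Mt m) (d : Module.Dual ℂ (I2 m → ℂ)) (x : Fin m × Bool) :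
    al (u3 C D M) (v3 m) d (x, true) = (∑ i, D i x * d (th m true i)) -
      (∑ j, D x j * d (th m true j)) + ∑ i, M i x * d (th m false i) := by
  rw [al_eq]
  simp only [Pi.add_apply, Finset.sum_apply, Pi.sub_apply, Pi.smul_apply, smul_eq_mul, th,
    Pi.single_apply, Prod.mk.injEq, and_true, and_false, Bool.false_eq_true, Bool.true_eq_false,
    if_false, mul_zero, sub_zero, zero_sub, Finset.sum_const_zero, add_zero, Finset.sum_sub_distrib,
    mul_ite, mul_one]
  simp only [Finset.sum_ite_eq, Finset.mem_univ, if_true]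
  rw [sum_pick x fun i j => d (Pi.single (j, true) 1) * D i j, zero_add]
  simp only [mul_comm]

theorem dual_zero (d : Module.Dual ℂ (I2 m → ℂ)) (h1 : ∀ x, d (th m false x) = 0)
    (h2 : ∀ x, d (th m true x) = 0) : d = 0 := by
  refine (Pi.basisFun ℂ (I2 m)).ext fun i => ?_
  obtain ⟨x, s⟩ := i
  rw [Pi.basisFun_apply, LinearMap.zero_apply]
  cases s
  · exact h1 x
  · exact h2 x

/-- **Nonvanishing.** -/
theorem LF_ne_zero (C : Mt m) (hC : ∀ i j, C j i = -C i j)
    (A P : Fin m × Bool → Fin m × Bool → ℝ) (hA : ∀ i j, A i j = A j i)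
    (hPs : ∀ i j, P i j = P j i)
    (hP : ∀ x : Fin m × Bool → ℝ, x ≠ 0 → 0 < ∑ i, ∑ j, x i * P i j * x j) :
    LF m (zval ((ff false false C + ff true true (cj C) +
      ff false true (fun i j => (A i j : ℂ) + Complex.I * (P i j : ℂ))) ^ (m + m))) ≠ 0 := by
  rw [← om_eq]
  refine LF_om_ne_zero _ _ (al_surj _ _ fun d hd => ?_)
  have e1 : ∀ i, 2 * (∑ j, C i j * d (th m false j)) +
      ∑ j, ((A i j : ℂ) + Complex.I * (P i j : ℂ)) * d (th m true j) = 0 := by
    intro x
    have h := congrFun hd (x, false)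
    rw [al_false, Pi.zero_apply] at h
    have h3 : ∑ i, C i x * d (th m false i) = -∑ j, C x j * d (th m false j) := by
      rw [← Finset.sum_neg_distrib]
      refine Finset.sum_congr rfl fun i _ => ?_
      rw [hC x i]
      ring
    rw [h3] at h
    linear_combination -h
  have e2 : ∀ i, (∑ j, ((A i j : ℂ) + Complex.I * (P i j : ℂ)) * d (th m false j)) -
      2 * (∑ j, (starRingEnd ℂ) (C i j) * d (th m true j)) = 0 := by
    intro x
    have h := congrFun hd (x, true)
    rw [al_true, Pi.zero_apply] at h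
    have h3 : ∑ i, cj C i x * d (th m true i) =
        -∑ j, (starRingEnd ℂ) (C x j) * d (th m true j) := by
      rw [← Finset.sum_neg_distrib]
      refine Finset.sum_congr rfl fun i _ => ?_
      rw [cj, hC x i, map_neg]
      ring
    have h4 : ∑ i, ((A i x : ℂ) + Complex.I * (P i x : ℂ)) * d (th m false i) =
        ∑ j, ((A x j : ℂ) + Complex.I * (P x j : ℂ)) * d (th m false j) := by
      refine Finset.sum_congr rfl fun i _ => ?_
      rw [hA i x, hPs i x]
    rw [h3, h4] at h
    have h5 : ∑ j, cj C x j * d (th m true j) =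
        ∑ j, (starRingEnd ℂ) (C x j) * d (th m true j) := rfl
    rw [h5] at h
    linear_combination h
  have h := quad_zero C hC A P hA hP (fun j => d (th m false j)) (fun j => d (th m true j)) e1 e2
  exact dual_zero d (congrFun h.1) (congrFun h.2)

end nonv

end Pool.Agent.U908.LP
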