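import Pool.Agent.Y195.HF.Main

/-!
# Real values of the functional
-/

set_option autoImplicit false

namespace Pool.Agent.U908.LP

open Pool.Agent.Y195.HF

section real

variable {m : ℕ}

theorem gmC_real (C : Fin m → C4 m)
    (h : ∀ b i j k l, (starRingEnd ℂ) (C b i j k l) = C b k l i j) :
    (starRingEnd ℂ) (gmC C) = gmC C := by
  unfold gmC
  rw [map_sum]
  conv_rhs => rw [Finset.sum_comm]
  refine Finset.sum_congr rfl fun σ _ => ?_
  rw [map_sum]
  refine Finset.sum_congr rfl fun τ _ => ?_
  rw [map_mul, map_prod, map_mul, map_intCast, map_intCast]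
  congr 1
  · ring
  · exact Finset.prod_congr rfl fun b _ => h b _ _ _ _

/-- the elements with real values -/
noncomputable def rl (m n : ℕ) : AddSubmonoid (Zc (I2 m → ℂ)) :=
  AddSubmonoid.closure {y | ∃ (r : ℝ) (C : Fin n → C4 m),
    (∀ b i j k l, (starRingEnd ℂ) (C b i j k l) = C b k l i j) ∧
    y = (r : ℂ) • ∏ b, eL (C b)}

theorem rl_gen {n : ℕ} (r : ℝ) (C : Fin n → C4 m)
    (h : ∀ b i j k l, (starRingEnd ℂ) (C b i j k l) = C b k l i j) :
    (r : ℂ) • ∏ b, eL (C b) ∈ rl m n :=
  AddSubmonoid.subset_closure ⟨r, C, h, rfl⟩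

theorem rl_one : (1 : Zc (I2 m → ℂ)) ∈ rl m 0 := by
  have h := rl_gen (m := m) (n := 0) 1 (fun b => b.elim0) (fun b => b.elim0)
  rwa [Finset.univ_eq_empty, Finset.prod_empty, Complex.ofReal_one, one_smul] at h

theorem rl_mul {n n' : ℕ} {x y : Zc (I2 m → ℂ)} (hx : x ∈ rl m n) (hy : y ∈ rl m n') :
    x * y ∈ rl m (n + n') := by
  unfold rl at hx
  induction hx using AddSubmonoid.closure_induction with
  | mem x hx =>
    obtain ⟨r, C, hC, rfl⟩ := hx
    unfold rl at hy
    induction hy using AddSubmonoid.closure_induction with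
    | mem y hy =>
      obtain ⟨s, D, hD, rfl⟩ := hy
      have h := rl_gen (m := m) (n := n + n') (r * s) (Fin.append C D) (by
        intro b
        refine Fin.addCases (fun b => ?_) (fun b => ?_) b
        · rw [Fin.append_left]
          exact hC b
        · rw [Fin.append_right]
          exact hD b)
      rw [Fin.prod_univ_add] at h
      simp only [Fin.append_left, Fin.append_right] at h
      rw [smul_mul_smul_comm, ← Complex.ofReal_mul]
      exact h
    | zero => rw [mul_zero]; exact (rl m (n + n')).zero_mem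
    | add y z _ _ hy hz => rw [mul_add]; exact (rl m (n + n')).add_mem hy hz
  | zero => rw [zero_mul]; exact (rl m (n + n')).zero_mem
  | add x z _ _ hx hz => rw [add_mul]; exact (rl m (n + n')).add_mem hx hz

theorem rl_pow {x : Zc (I2 m → ℂ)} (hx : x ∈ rl m 1) (n : ℕ) : x ^ n ∈ rl m n := by
  induction n with
  | zero => rw [pow_zero]; exact rl_one
  | succ n ih => rw [pow_succ]; exact rl_mul ih hx

theorem rl_smul {n : ℕ} {x : Zc (I2 m → ℂ)} (hx : x ∈ rl m n) (r : ℝ) :
    (r : ℂ) • x ∈ rl m n := by
  unfold rl at hx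
  induction hx using AddSubmonoid.closure_induction with
  | mem x hx =>
    obtain ⟨s, C, hC, rfl⟩ := hx
    rw [smul_smul, ← Complex.ofReal_mul]
    exact rl_gen _ C hC
  | zero => rw [smul_zero]; exact (rl m n).zero_mem
  | add x z _ _ hx hz => rw [smul_add]; exact (rl m n).add_mem hx hz

theorem rl_LF {y : Zc (I2 m → ℂ)} (hy : y ∈ rl m m) :
    ∃ r : ℝ, LF m (zval y) = (r : ℂ) := by
  unfold rl at hy
  induction hy using AddSubmonoid.closure_induction with
  | mem y hy =>
    obtain ⟨r, C, hC, rfl⟩ := hy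
    have h1 := gmC_real C hC
    rw [Complex.conj_eq_iff_real] at h1
    obtain ⟨s, hs⟩ := h1
    refine ⟨r * s, ?_⟩
    have h2 := LF_el C
    unfold eL
    rw [map_smul, map_smul, h2, hs, smul_eq_mul, Complex.ofReal_mul]
  | zero => exact ⟨0, by rw [map_zero, map_zero, Complex.ofReal_zero]⟩
  | add x y _ _ hx hy =>
    obtain ⟨r, hr⟩ := hx
    obtain ⟨s, hs⟩ := hy
    exact ⟨r + s, by rw [map_add, map_add, hr, hs, Complex.ofReal_add]⟩

theorem rl_one_gen (C : C4 m) (h : ∀ i j k l, (starRingEnd ℂ) (C i j k l) = C k l i j) :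
    eL C ∈ rl m 1 := by
  have h1 := rl_gen (m := m) (n := 1) 1 (fun _ => C) (fun _ => h)
  rwa [Fin.prod_univ_one, Complex.ofReal_one, one_smul] at h1

theorem rl_uv (C : Mt m) : ff false false C * ff true true (cj C) ∈ rl m 1 := by
  rw [← eL_mul]
  refine rl_one_gen _ fun i j k l => ?_
  simp only [cj, map_mul, Complex.conj_conj]
  ring

theorem cross_mul (A B : Mt m) : ff false true A * ff false true B =
    (-1 : ℂ) • eL (fun i j k l => A i k * B j l) := by
  have h : ff false true A * ff false true B = ∑ i, ∑ j, ∑ k, ∑ l, (A i k * B j l) •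
      (bv (th m false i) (th m true k) * bv (th m false j) (th m true l)) := by
    simp only [ff]
    rw [Finset.sum_mul]
    refine Finset.sum_congr rfl fun i _ => ?_
    rw [Finset.mul_sum]
    refine Finset.sum_congr rfl fun j _ => ?_
    rw [Finset.sum_mul]
    refine Finset.sum_congr rfl fun k _ => ?_
    rw [Finset.mul_sum]
    refine Finset.sum_congr rfl fun l _ => ?_
    simp only [Algebra.smul_def, map_mul]
    ring
  rw [h, eL, el, neg_one_smul, ← Finset.sum_neg_distrib]
  refine Finset.sum_congr rfl fun i _ => ?_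
  rw [← Finset.sum_neg_distrib]
  refine Finset.sum_congr rfl fun j _ => ?_
  rw [← Finset.sum_neg_distrib]
  refine Finset.sum_congr rfl fun k _ => ?_
  rw [← Finset.sum_neg_distrib]
  refine Finset.sum_congr rfl fun l _ => ?_
  rw [bv_exch (th m false i) (th m true k), smul_neg]

/-- the element of a real symmetric matrix -/
noncomputable def xf (B : Fin m × Bool → Fin m × Bool → ℝ) : Zc (I2 m → ℂ) :=
  ff false true (cm B)

theorem rl_xf (A B : Fin m × Bool → Fin m × Bool → ℝ) (hA : ∀ i j, A i j = A j i)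
    (hB : ∀ i j, B i j = B j i) : xf A * xf B ∈ rl m 1 := by
  unfold xf
  rw [cross_mul]
  have h1 : ((-1 : ℝ) : ℂ) = -1 := by simp
  rw [← h1]
  refine rl_smul (rl_one_gen _ fun i j k l => ?_) _
  simp only [cm, map_mul, Complex.conj_ofReal]
  rw [hA i k, hB j l]

theorem xf_inv (B : Fin m × Bool → Fin m × Bool → ℝ) (hB : ∀ i j, B i j = B j i) :
    Inv (xf B) := by
  have hs : ∀ s : Bool, ff s s (cm B) = 0 := by
    intro s
    have h1 : ff s s (cm B) = -ff s s (cm B) := by
      unfold ff
      conv_lhs => rw [Finset.sum_comm]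
      rw [← Finset.sum_neg_distrib]
      refine Finset.sum_congr rfl fun i _ => ?_
      rw [← Finset.sum_neg_distrib]
      refine Finset.sum_congr rfl fun j _ => ?_
      rw [bv_swap, smul_neg]
      simp only [cm]
      rw [hB j i]
    have h2 : (2 : ℂ) • ff s s (cm B) = 0 := by
      rw [two_smul]
      nth_rewrite 1 [h1]
      exact neg_add_cancel _
    exact (smul_eq_zero.1 h2).resolve_left two_ne_zero
  have ht : ff true false (cm B) = -ff false true (cm B) := by
    unfold ff
    rw [Finset.sum_comm, ← Finset.sum_neg_distrib]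
    refine Finset.sum_congr rfl fun i _ => ?_
    rw [← Finset.sum_neg_distrib]
    refine Finset.sum_congr rfl fun j _ => ?_
    rw [bv_swap, smul_neg]
    simp only [cm]
    rw [hB j i]
  intro a b c d h
  unfold xf
  rw [map_ff, hs, hs, ht]
  congr 1
  simp only [Bool.false_eq_true, if_false, if_true, smul_zero, zero_add, add_zero, smul_neg]
  rw [← neg_smul, ← add_smul]
  have : a * d + -(b * c) = 1 := by linear_combination h
  rw [this, one_smul]

theorem xf_sq (B : Fin m × Bool → Fin m × Bool → ℝ) :
    eL (cx (fun i j k l => B i k * B j l - B i l * B j k)) = (-2 : ℂ) • xf B ^ 2 := by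
  have h1 : (cx (fun i j k l => B i k * B j l - B i l * B j k) : C4 m) =
      fun i j k l => cm B i k * cm B j l + (-1) * (cm B i l * cm B j k) := by
    funext i j k l
    simp only [cx, cm]
    push_cast
    ring
  rw [h1, eL_add, eL_smul (-1) (fun i j k l => cm B i l * cm B j k), eL_cross, eL_cross']
  unfold xf
  rw [neg_smul, neg_smul, one_smul, two_smul]
  abel

end real

end Pool.Agent.U908.LP
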