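import Pool.Agent.U908.LP.Fin

/-!
# Sharpness of the bound on the second fundamental form
-/

set_option autoImplicit false

namespace Pool.Agent.U908.LP

open Pool.Agent.W666.GB Pool.Agent.W669.HD
open Pool.Agent.N565.LZ (SecForm gaussT)

section diag

variable {m : ℕ}

theorem Yf_diag (κ : Fin m × Bool → Fin m × Bool → ℝ) :
    Yf (fun a b c d => κ a c * ((if a = b then 1 else 0) * (if c = d then 1 else 0))) =
      ∑ σ : Equiv.Perm (Fin m × Bool), ∏ b, κ (σ (b, false)) (σ (b, true)) := by
  unfold Yf
  refine Finset.sum_congr rfl fun π _ => ?_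
  rw [Finset.sum_eq_single π]
  · have h1 : sn π * sn π = 1 := by
      rw [sn_def]
      rcases Int.units_eq_one_or (Equiv.Perm.sign π) with h | h <;> simp [h]
    rw [h1, one_mul]
    refine Finset.prod_congr rfl fun b _ => ?_
    beta_reduce
    rw [if_pos rfl, if_pos rfl]
    ring
  · intro π' _ hne
    obtain ⟨x, hx⟩ : ∃ x, π x ≠ π' x := by
      by_contra hcon
      push Not at hcon
      exact hne (Equiv.ext fun x => (hcon x).symm)
    obtain ⟨b, s⟩ := x
    rw [Finset.prod_eq_zero (Finset.mem_univ b), mul_zero]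
    beta_reduce
    cases s
    · rw [if_neg hx, zero_mul, mul_zero]
    · rw [if_neg hx, mul_zero, mul_zero]
  · intro h
    exact absurd (Finset.mem_univ _) h

/-- the eigenvalues -/
def lm (m : ℕ) (a b : ℝ) (i : Fin m × Bool) : ℝ := if i.1.1 = 0 then a else b

theorem prod_sign (a b c p q : ℝ) (h1 : a * a - c = p) (h2 : a * b - c = 0)
    (h3 : b * b - c = -q) (hp : 0 < p) (hq : 0 < q) (hm : 1 ≤ m)
    (σ : Equiv.Perm (Fin m × Bool)) :
    (-1 : ℝ) ^ m * ∏ k : Fin m, (lm m a b (σ (k, false)) * lm m a b (σ (k, true)) - c) ≤ 0 := by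
  set z : Fin m := ⟨0, hm⟩ with hz
  set x0 := σ.symm (z, false) with hx0
  have e0 : σ x0 = (z, false) := σ.apply_symm_apply _
  set b0 := x0.1 with hb0
  set s0 := x0.2 with hs0
  have e1 : σ (b0, s0) = (z, false) := e0
  by_cases ho : (σ (b0, !s0)).1 = z
  · have e2 : σ (b0, !s0) = (z, true) := by
      have h4 : (σ (b0, !s0)).2 = true := by
        by_contra hcon
        have h5 : σ (b0, !s0) = (z, false) := Prod.ext ho (by simpa using hcon)
        rw [← e1] at h5
        have h6 := σ.injective h5
        have h7 := congrArg Prod.snd h6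
        simp at h7
      exact Prod.ext ho h4
    have h5 : ∀ k ∈ Finset.univ.erase b0, (lm m a b (σ (k, false)) * lm m a b (σ (k, true)) - c) =
        -q := by
      intro k hk
      have hk' := Finset.ne_of_mem_erase hk
      have h6 : ∀ s, (σ (k, s)).1 ≠ z := by
        intro s hs
        rcases hb : (σ (k, s)).2 with _ | _
        · have h7 : σ (k, s) = σ (b0, s0) := by
            rw [e1]
            exact Prod.ext hs hb
          exact hk' (congrArg Prod.fst (σ.injective h7))
        · have h7 : σ (k, s) = σ (b0, !s0) := by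
            rw [e2]
            exact Prod.ext hs hb
          exact hk' (congrArg Prod.fst (σ.injective h7))
      have h8 : ∀ s, lm m a b (σ (k, s)) = b := by
        intro s
        unfold lm
        rw [if_neg]
        intro h9
        exact h6 s (Fin.ext h9)
      rw [h8, h8, h3]
    have h6 : lm m a b (σ (b0, false)) * lm m a b (σ (b0, true)) - c = p := by
      have h7 : ∀ s, lm m a b (σ (b0, s)) = a := by
        intro s
        unfold lm
        by_cases hs : s = s0
        · rw [hs, e1]
          simp [hz]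
        · have : s = !s0 := by
            cases s <;> cases hs' : s0 <;> simp_all
          rw [this, e2]
          simp [hz]
      rw [h7, h7, h1]
    rw [← Finset.mul_prod_erase Finset.univ _ (Finset.mem_univ b0), h6,
      Finset.prod_congr rfl h5, Finset.prod_const, Finset.card_erase_of_mem (Finset.mem_univ b0),
      Finset.card_univ, Fintype.card_fin]
    obtain ⟨k, rfl⟩ : ∃ k, m = k + 1 := ⟨m - 1, by omega⟩
    have h8 : (-1 : ℝ) ^ (k + 1) * (p * (-q) ^ (k + 1 - 1)) = -(p * q ^ k) := by
      rw [Nat.add_sub_cancel, neg_pow q k, pow_succ]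
      have h9 : (-1 : ℝ) ^ k * (-1) ^ k = 1 := by
        rw [← mul_pow]
        norm_num
      linear_combination (-(p * q ^ k)) * h9
    rw [h8]
    have := mul_pos hp (pow_pos hq k)
    linarith
  · have h5 : lm m a b (σ (b0, false)) * lm m a b (σ (b0, true)) - c = 0 := by
      have h6 : lm m a b (σ (b0, s0)) = a := by
        rw [e1]
        simp [lm, hz]
      have h7 : lm m a b (σ (b0, !s0)) = b := by
        unfold lm
        rw [if_neg]
        intro h9
        exact ho (Fin.ext h9)
      cases hs : s0
      · rw [hs] at h6 h7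
        rw [h6]
        simp only [Bool.not_false] at h7
        rw [h7, h2]
      · rw [hs] at h6 h7
        rw [h6]
        simp only [Bool.not_true] at h7
        rw [h7, mul_comm, h2]
    rw [Finset.prod_eq_zero (Finset.mem_univ b0) h5, mul_zero]

theorem prod_one (a b c p q : ℝ) (h1 : a * a - c = p)
    (h3 : b * b - c = -q) (hp : 0 < p) (hq : 0 < q) (hm : 1 ≤ m) :
    (-1 : ℝ) ^ m * ∏ k : Fin m, (lm m a b (k, false) * lm m a b (k, true) - c) < 0 := by
  obtain ⟨k, rfl⟩ : ∃ k, m = k + 1 := ⟨m - 1, by omega⟩
  rw [Fin.prod_univ_succ]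
  have h4 : ∀ i : Fin k, lm (k + 1) a b (i.succ, false) * lm (k + 1) a b (i.succ, true) - c =
      -q := by
    intro i
    simp only [lm, Fin.val_succ, Nat.succ_ne_zero, if_false]
    exact h3
  rw [Finset.prod_congr rfl fun i _ => h4 i, Finset.prod_const, Finset.card_univ,
    Fintype.card_fin]
  have h5 : lm (k + 1) a b (0, false) * lm (k + 1) a b (0, true) - c = p := by
    simp only [lm, Fin.val_zero, if_true]
    exact h1
  rw [h5]
  have h8 : (-1 : ℝ) ^ (k + 1) * (p * (-q) ^ k) = -(p * q ^ k) := by
    rw [neg_pow q k, pow_succ]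
    have h9 : (-1 : ℝ) ^ k * (-1) ^ k = 1 := by
      rw [← mul_pow]
      norm_num
    linear_combination (-(p * q ^ k)) * h9
  rw [h8]
  have := mul_pos hp (pow_pos hq k)
  linarith

end diag

section sharp

variable {m : ℕ} {V : Type} [NormedAddCommGroup V] [InnerProductSpace ℝ V]

/-- **Sharpness.** -/
theorem sharp_bound (e : OrthonormalBasis (Fin m × Bool) ℝ V) (hm : 1 ≤ m) {c c' : ℝ}
    (hc : 0 < c) (hcc : c < c') : ∃ β : V → V → ℝ, SecForm β ∧
      (∀ x, ‖β x x‖ ^ 2 ≤ c' * ‖x‖ ^ 4) ∧ (-1) ^ m * gbc e (gaussT c β) < 0 := by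
  set a := Real.sqrt c' with ha
  have hc' : 0 < c' := hc.trans hcc
  have ha0 : 0 < a := Real.sqrt_pos.2 hc'
  have ha2 : a * a = c' := Real.mul_self_sqrt hc'.le
  set b := c / a with hb
  have hb0 : 0 < b := by positivity
  have hab : a * b = c := by
    rw [hb]
    field_simp
  have hba : b ≤ a := by
    by_contra hcon
    push Not at hcon
    have := mul_lt_mul_of_pos_left hcon ha0
    linarith
  set β : V → V → ℝ := fun x y => ∑ i, lm m a b i * (inner ℝ (e i) x * inner ℝ (e i) y) with hβ
  have hl : ∀ i, 0 < lm m a b i ∧ lm m a b i ≤ a := by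
    intro i
    unfold lm
    split_ifs
    · exact ⟨ha0, le_rfl⟩
    · exact ⟨hb0, hba⟩
  refine ⟨β, ⟨fun x y => ?_, fun x x' y => ?_, fun t x y => ?_⟩, fun x => ?_, ?_⟩
  · simp only [hβ]
    exact Finset.sum_congr rfl fun i _ => by ring
  · simp only [hβ, inner_add_right]
    rw [← Finset.sum_add_distrib]
    exact Finset.sum_congr rfl fun i _ => by ring
  · simp only [hβ, inner_smul_right, smul_eq_mul]
    rw [Finset.mul_sum]
    exact Finset.sum_congr rfl fun i _ => by ring
  · have h1 : ∑ i, inner ℝ (e i) x ^ 2 = ‖x‖ ^ 2 := by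
      rw [← real_inner_self_eq_norm_sq, ← e.sum_inner_mul_inner x x]
      refine Finset.sum_congr rfl fun i _ => ?_
      rw [real_inner_comm x (e i), sq]
    have h2 : 0 ≤ β x x := Finset.sum_nonneg fun i _ => by
      have := (hl i).1
      have h3 := mul_self_nonneg (inner ℝ (e i) x)
      positivity
    have h3 : β x x ≤ a * ‖x‖ ^ 2 := by
      rw [← h1, Finset.mul_sum]
      refine Finset.sum_le_sum fun i _ => ?_
      have h4 := (hl i).2
      have h5 := mul_self_nonneg (inner ℝ (e i) x)
      rw [sq]
      exact mul_le_mul_of_nonneg_right h4 h5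
    rw [Real.norm_eq_abs, sq_abs]
    have h4 : c' * ‖x‖ ^ 4 = (a * ‖x‖ ^ 2) ^ 2 := by
      rw [mul_pow, sq a, ha2]
      ring
    rw [h4]
    exact pow_le_pow_left₀ h2 h3 2
  · have hie : ∀ i j, inner ℝ (e i) (e j) = if i = j then (1 : ℝ) else 0 := by
      intro i j
      have := e.inner_eq_ite i j
      exact this
    have hβe : ∀ i j, β (e i) (e j) = if i = j then lm m a b i else 0 := by
      intro i j
      simp only [hβ, hie]
      rw [Finset.sum_eq_single i]
      · by_cases hij : i = j
        · subst hij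
          simp
        · rw [if_pos rfl, if_neg hij, if_neg hij]
          ring
      · intro k _ hk
        rw [if_neg hk]
        ring
      · intro h
        exact absurd (Finset.mem_univ _) h
    have h1 := lift_sum (B := Fin m) (fun x y z w => (lm m a b x * lm m a b z - c) *
      ((if x = y then 1 else 0) * (if z = w then 1 else 0)))
      (fun i j k l => gaussT c β (e i) (e j) (e k) (e l)) (fun i j k l => by
        simp only [gaussT, unitT, hβe, hie]
        rw [RCLike.inner_apply, RCLike.inner_apply]
        simp only [conj_trivial]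
        split_ifs <;> ring)
    have h2 : gbc e (gaussT c β) = 1 / ((8 * Real.pi) ^ m * m.factorial) * (2 ^ m *
        ∑ σ : Equiv.Perm (Fin m × Bool), ∏ k : Fin m,
          (lm m a b (σ (k, false)) * lm m a b (σ (k, true)) - c)) := by
      rw [Fintype.card_fin, Yf_diag (fun x z => lm m a b x * lm m a b z - c)] at h1
      rw [← h1]
      rfl
    have hπ := Real.pi_pos
    have h3 : (-1 : ℝ) ^ m * ∑ σ : Equiv.Perm (Fin m × Bool), ∏ k : Fin m,
          (lm m a b (σ (k, false)) * lm m a b (σ (k, true)) - c) < 0 := by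
      rw [Finset.mul_sum]
      have hp : 0 < c' - c := by linarith
      have hq : 0 < c - b * b := by
        have : b * b < a * b := by
          refine mul_lt_mul_of_pos_right ?_ hb0
          refine lt_of_le_of_ne hba fun h => ?_
          rw [h, ha2] at hab
          linarith
        linarith
      refine Finset.sum_neg' (fun σ _ => prod_sign a b c (c' - c) (c - b * b) (by rw [ha2])
        (by rw [hab, sub_self]) (by ring) hp hq hm σ) ⟨1, Finset.mem_univ _, ?_⟩
      exact prod_one a b c (c' - c) (c - b * b) (by rw [ha2]) (by ring) hp hq hm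
    rw [h2]
    have h4 : (-1 : ℝ) ^ m * (1 / ((8 * Real.pi) ^ m * m.factorial) * (2 ^ m *
        ∑ σ : Equiv.Perm (Fin m × Bool), ∏ k : Fin m,
          (lm m a b (σ (k, false)) * lm m a b (σ (k, true)) - c))) =
        (1 / ((8 * Real.pi) ^ m * m.factorial) * 2 ^ m) * ((-1 : ℝ) ^ m *
        ∑ σ : Equiv.Perm (Fin m × Bool), ∏ k : Fin m,
          (lm m a b (σ (k, false)) * lm m a b (σ (k, true)) - c)) := by ring
    rw [h4]
    have h5 : 0 < 1 / ((8 * Real.pi) ^ m * (m.factorial : ℝ)) * 2 ^ m := by positivity
    exact mul_neg_of_pos_of_neg h5 h3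

end sharp

end Pool.Agent.U908.LP
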