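import Pool.Agent.U908.LP.Gen
import Pool.Agent.U908.LP.Real
import Pool.Agent.U908.LP.Pos
import Pool.Agent.U908.LC.Det

/-!
# Positivity of the contraction with one quaternionic direction fixed
-/

set_option autoImplicit false

namespace Pool.Agent.U908.LP

open MvPolynomial Pool.Agent.Y195.HF Pool.Agent.U908.LC

section weights

variable {m : ℕ}

/-- the functional -/
noncomputable def Lz (m : ℕ) : Zc (I2 m → ℂ) →ₗ[ℂ] ℂ := (LF m) ∘ₗ (zval (M := I2 m → ℂ)).toLinearMap

theorem Lz_apply (x : Zc (I2 m → ℂ)) : Lz m x = LF m (zval x) := rfl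

/-- the planar element of a complex skew matrix -/
noncomputable def pl (C : Mt m) : Zc (I2 m → ℂ) := ff false false C + ff true true (cj C)

theorem cj_skew {C : Mt m} (hC : ∀ i j, C j i = - C i j) : ∀ i j, cj C j i = - cj C i j :=
  fun i j => by simp only [cj]; rw [hC i j, map_neg]

theorem pl_odd {C : Mt m} (hC : ∀ i j, C j i = - C i j) {T : Zc (I2 m → ℂ)} (hT : Inv T) (k : ℕ) :
    Lz m (pl C ^ (2 * k + 1) * T) = 0 := by
  have h1 : pl C ^ (2 * k + 1) * T =
      ∑ a ∈ Finset.range (2 * k + 1 + 1), ((2 * k + 1).choose a : ℂ) •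
        (ff false false C ^ a * ff true true (cj C) ^ (2 * k + 1 - a) * T) := by
    unfold pl
    rw [add_pow, Finset.sum_mul]
    refine Finset.sum_congr rfl fun k _ => ?_
    simp only [Algebra.smul_def, map_natCast]
    ring
  rw [h1, map_sum]
  refine Finset.sum_eq_zero fun a ha => ?_
  rw [Finset.mem_range] at ha
  rw [map_smul, Lz_apply, weight hC (cj_skew hC) hT (by omega), smul_zero]

theorem pl_even {C : Mt m} (hC : ∀ i j, C j i = - C i j) {T : Zc (I2 m → ℂ)} (hT : Inv T) (k : ℕ) :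
    Lz m (pl C ^ (2 * k) * T) =
      ((2 * k).choose k : ℂ) * Lz m ((ff false false C * ff true true (cj C)) ^ k * T) := by
  have h1 : pl C ^ (2 * k) * T =
      ∑ a ∈ Finset.range (2 * k + 1), ((2 * k).choose a : ℂ) •
        (ff false false C ^ a * ff true true (cj C) ^ (2 * k - a) * T) := by
    unfold pl
    rw [add_pow, Finset.sum_mul]
    refine Finset.sum_congr rfl fun k _ => ?_
    simp only [Algebra.smul_def, map_natCast]
    ring
  rw [h1, map_sum, Finset.sum_eq_single k]
  · have h2 : 2 * k - k = k := by omega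
    rw [map_smul, smul_eq_mul, h2, mul_pow]
  · intro a ha hak
    rw [Finset.mem_range] at ha
    rw [map_smul, Lz_apply, weight hC (cj_skew hC) hT (by omega), smul_zero]
  · intro h
    exact absurd (Finset.mem_range.mpr (by omega)) h

theorem pl_real {C : Mt m} (hC : ∀ i j, C j i = - C i j) {T : Zc (I2 m → ℂ)} (hT : Inv T)
    {k n : ℕ} (hr : T ∈ rl m n) (hk : k + n = m) :
    ∃ r : ℝ, Lz m (pl C ^ (2 * k) * T) = (r : ℂ) := by
  subst hk
  obtain ⟨r, hr'⟩ := rl_LF (rl_mul (rl_pow (rl_uv C) k) hr)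
  refine ⟨(2 * k).choose k * r, ?_⟩
  rw [pl_even hC hT, Lz_apply, hr']
  push_cast
  ring

theorem sum_even_odd {M : Type} [AddCommMonoid M] (f : ℕ → M) (m : ℕ) :
    ∑ a ∈ Finset.range (2 * m + 1), f a = (∑ k ∈ Finset.range (m + 1), f (2 * k)) +
      ∑ k ∈ Finset.range m, f (2 * k + 1) := by
  induction m with
  | zero => simp
  | succ m ih =>
    rw [show 2 * (m + 1) + 1 = (2 * m + 1) + 1 + 1 by ring, Finset.sum_range_succ,
      Finset.sum_range_succ, ih, Finset.sum_range_succ (fun k => f (2 * k)) (m + 1),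
      Finset.sum_range_succ (fun k => f (2 * k + 1)) m]
    have h1 : 2 * (m + 1) = 2 * m + 1 + 1 := by ring
    rw [h1]
    abel

theorem eval_GF {S : Type} [Fintype S] (x : S → Zc (I2 m → ℂ)) {C : Mt m}
    (hC : ∀ i j, C j i = - C i j) (z : S → ℂ) (hZ : Inv (∑ s, z s • x s)) :
    eval z (GF x (Lz m) m (pl C)) = Lz m ((pl C + ∑ s, z s • x s) ^ (m + m)) := by
  have h2 : m + m = 2 * m := by ring
  rw [h2, add_pow, sum_even_odd, map_add]
  have h3 : Lz m (∑ k ∈ Finset.range m, pl C ^ (2 * k + 1) *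
      (∑ s, z s • x s) ^ (2 * m - (2 * k + 1)) * ((2 * m).choose (2 * k + 1) : Zc (I2 m → ℂ))) =
      0 := by
    rw [map_sum]
    refine Finset.sum_eq_zero fun k _ => ?_
    have h4 : pl C ^ (2 * k + 1) * (∑ s, z s • x s) ^ (2 * m - (2 * k + 1)) *
        ((2 * m).choose (2 * k + 1) : Zc (I2 m → ℂ)) = ((2 * m).choose (2 * k + 1) : ℂ) •
        (pl C ^ (2 * k + 1) * (∑ s, z s • x s) ^ (2 * m - (2 * k + 1))) := by
      simp only [Algebra.smul_def, map_natCast]
      ring
    rw [h4, map_smul, pl_odd hC (hZ.pow _), smul_zero]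
  rw [h3, add_zero, map_sum]
  unfold GF
  rw [map_sum]
  refine Finset.sum_congr rfl fun k hk => ?_
  rw [Finset.mem_range] at hk
  have h4 : 2 * m - 2 * k = 2 * (m - k) := by omega
  have h5 : pl C ^ (2 * k) * (∑ s, z s • x s) ^ (2 * m - 2 * k) *
      ((2 * m).choose (2 * k) : Zc (I2 m → ℂ)) = ((2 * m).choose (2 * k) : ℂ) •
      (pl C ^ (2 * k) * (∑ s, z s • x s) ^ (2 * (m - k))) := by
    rw [h4]
    simp only [Algebra.smul_def, map_natCast]
    ring
  rw [h5, smul_eval, eval_QF, map_smul, smul_eq_mul]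

end weights

section main

variable {I K : Type} [Fintype I] [DecidableEq I] [Fintype K] [DecidableEq K] {m : ℕ}

omit [DecidableEq I] [DecidableEq K] in
/-- the pencil as one matrix -/
theorem sum_xf (B : I × Option K → Fin m × Bool → Fin m × Bool → ℝ) (z : I × Option K → ℂ) :
    ∑ s, z s • xf (B s) = ff false true (fun i j =>
      ((∑ s, (z s).re * B s i j : ℝ) : ℂ) + Complex.I * ((∑ s, (z s).im * B s i j : ℝ) : ℂ)) := by
  unfold ff xf
  have h1 : ∀ s, z s • ff false true (cm (B s)) =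
      ∑ i, ∑ j, (z s * (B s i j : ℂ)) • bv (th m false i) (th m true j) := by
    intro s
    unfold ff
    simp only [Finset.smul_sum, smul_smul]
    rfl
  rw [Finset.sum_congr rfl fun s _ => h1 s, Finset.sum_comm]
  refine Finset.sum_congr rfl fun i _ => ?_
  rw [Finset.sum_comm]
  refine Finset.sum_congr rfl fun j _ => ?_
  rw [← Finset.sum_smul]
  congr 1
  push_cast
  rw [Finset.mul_sum, ← Finset.sum_add_distrib]
  refine Finset.sum_congr rfl fun s _ => ?_
  conv_lhs => rw [← Complex.re_add_im (z s)]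
  ring

omit [DecidableEq I] [DecidableEq K] in
theorem inv_pencil (B : I × Option K → Fin m × Bool → Fin m × Bool → ℝ)
    (hs : ∀ s i j, B s i j = B s j i) (z : I × Option K → ℂ) : Inv (∑ s, z s • xf (B s)) :=
  Inv.sum fun s => (xf_inv (B s) (hs s)).smul _

omit [DecidableEq I] [DecidableEq K] in
theorem stab_GF (B : I × Option K → Fin m × Bool → Fin m × Bool → ℝ)
    (hs : ∀ s i j, B s i j = B s j i)
    (hc : ∀ i x, 0 ≤ qd (B (i, none)) x ∧
      ∑ k, qd (B (i, some k)) x ^ 2 ≤ qd (B (i, none)) x ^ 2)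
    (hpos : ∀ x, x ≠ 0 → 0 < ∑ i, qd (B (i, none)) x) {C : Mt m}
    (hC : ∀ i j, C j i = - C i j) : StabP (GF (fun s => xf (B s)) (Lz m) m (pl C)) := by
  intro z hz
  rw [eval_GF _ hC z (inv_pencil B hs z), sum_xf, Lz_apply]
  refine LF_ne_zero C hC _ _ (fun i j => Finset.sum_congr rfl fun s _ => by rw [hs])
    (fun i j => Finset.sum_congr rfl fun s _ => by rw [hs]) (fun x hx => ?_)
  rw [qd_sum B (fun s => (z s).im)]
  exact pencil_pos B hc hpos (fun s => (z s).im) hz x hx

/-- the quadratic element -/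
noncomputable def qe (B : I × Option K → Fin m × Bool → Fin m × Bool → ℝ) : Zc (I2 m → ℂ) :=
  ∑ s, ((er s.2 : ℝ) : ℂ) • xf (B s) ^ 2

/-- the time direction -/
noncomputable def ye (B : I × Option K → Fin m × Bool → Fin m × Bool → ℝ) : Zc (I2 m → ℂ) :=
  ∑ s, ((tr s.2 : ℝ) : ℂ) • xf (B s)

omit [DecidableEq I] [DecidableEq K] in
theorem qe_inv (B : I × Option K → Fin m × Bool → Fin m × Bool → ℝ)
    (hs : ∀ s i j, B s i j = B s j i) : Inv (qe B) :=
  Inv.sum fun s => ((xf_inv (B s) (hs s)).pow 2).smul _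

omit [DecidableEq I] [DecidableEq K] in
theorem qe_rl (B : I × Option K → Fin m × Bool → Fin m × Bool → ℝ)
    (hs : ∀ s i j, B s i j = B s j i) : qe B ∈ rl m 1 := by
  refine AddSubmonoid.sum_mem _ fun s _ => rl_smul ?_ _
  rw [sq]
  exact rl_xf _ _ (hs s) (hs s)

omit [DecidableEq I] [DecidableEq K] in
theorem ye_rl (B : I × Option K → Fin m × Bool → Fin m × Bool → ℝ)
    (hs : ∀ s i j, B s i j = B s j i) : ye B ^ 2 ∈ rl m 1 := by
  unfold ye
  rw [sq, Finset.sum_mul_sum]
  refine AddSubmonoid.sum_mem _ fun s _ => AddSubmonoid.sum_mem _ fun t _ => ?_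
  rw [smul_mul_smul_comm, ← Complex.ofReal_mul]
  exact rl_smul (rl_xf _ _ (hs s) (hs t)) _

omit [DecidableEq I] [DecidableEq K] in
theorem ye_eq (B : I × Option K → Fin m × Bool → Fin m × Bool → ℝ) :
    ye B = xf (fun i j => ∑ s, tr s.2 * B s i j) := by
  unfold ye
  rw [sum_xf]
  unfold xf
  congr 1
  funext i j
  simp [cm]

/-- the value of the functional at powers of one symmetric matrix -/
theorem Lz_xf_pow (B : Fin m × Bool → Fin m × Bool → ℝ) :
    Lz m (xf B ^ (2 * m)) = ((-1) ^ m * ((2 * m).factorial * Matrix.det (Matrix.of B)) : ℝ) := by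
  have h1 : xf B ^ 2 = (-1 : ℂ) • eL (fun i j k l => cm B i k * cm B j l) := by
    rw [sq]
    exact cross_mul _ _
  rw [pow_mul, h1, smul_pow, map_smul, Lz_apply]
  have h2 := LF_el (fun _ : Fin m => (fun i j k l => cm B i k * cm B j l : C4 m))
  rw [Finset.prod_const, Finset.card_univ, Fintype.card_fin] at h2
  unfold eL
  rw [h2]
  have h3 := Pool.Agent.N565.LZ.sum_sign_det (fun i j : Fin m × Bool => (B i j : ℂ))
  have h4 : gmC (fun _ : Fin m => (fun i j k l => cm B i k * cm B j l : C4 m)) =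
      ((2 * m).factorial : ℂ) * Matrix.det (Matrix.of fun i j => (B i j : ℂ)) := by
    rw [Fintype.card_prod, Fintype.card_fin, Fintype.card_bool, mul_comm m 2] at h3
    rw [← h3]
    unfold gmC
    refine Finset.sum_congr rfl fun σ _ => Finset.sum_congr rfl fun τ _ => ?_
    congr 1
    rw [Fintype.prod_prod_type]
    refine Finset.prod_congr rfl fun b _ => ?_
    rw [Fintype.prod_bool, mul_comm]
    rfl
  rw [h4]
  have h5 : Matrix.det (Matrix.of fun i j => (B i j : ℂ)) = ((Matrix.det (Matrix.of B) : ℝ) : ℂ) := by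
    have := RingHom.map_det Complex.ofRealHom (Matrix.of B)
    rw [Complex.ofRealHom_eq_coe] at this
    rw [this]
    rfl
  rw [h5]
  push_cast
  simp

end main

end Pool.Agent.U908.LP
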