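import Pool.Agent.U908.LP.Wp

/-!
# The limit of the flow at the vertex of the cone
-/

set_option autoImplicit false

namespace Pool.Agent.U908.LP

open MvPolynomial Pool.Agent.Y195.HF Pool.Agent.U908.LC

section main

variable {I K : Type} [Fintype I] [DecidableEq I] [Fintype K] [DecidableEq K] {m : ℕ}

theorem pl_smul (r : ℝ) (C : Mt m) : pl ((r : ℂ) • C) = (r : ℂ) • pl C := by
  have h : cj ((r : ℂ) • C) = (r : ℂ) • cj C := by
    funext i j
    simp only [cj, Pi.smul_apply, smul_eq_mul, map_mul, Complex.conj_ofReal]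
  unfold pl
  rw [h, ff_smul, ff_smul, smul_add]

/-- real values -/
noncomputable def rr (B : I × Option K → Fin m × Bool → Fin m × Bool → ℝ) (C : Mt m)
    (k j : ℕ) : ℝ := (Lz m (pl C ^ (2 * k) * (qe B ^ j * ye B ^ (2 * (m - k - j))))).re

/-- coefficients -/
noncomputable def cc (m k j : ℕ) : ℝ :=
  (2 * m).factorial / ((2 * k).factorial * j.factorial * (2 * (m - k - j)).factorial)

omit [DecidableEq I] [DecidableEq K] in
theorem rr_eq (B : I × Option K → Fin m × Bool → Fin m × Bool → ℝ)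
    (hs : ∀ s i j, B s i j = B s j i) {C : Mt m} (hC : ∀ i j, C j i = - C i j) {k j : ℕ}
    (hkj : k + j ≤ m) :
    Lz m (pl C ^ (2 * k) * (qe B ^ j * ye B ^ (2 * (m - k - j)))) = (rr B C k j : ℂ) := by
  have hT : Inv (qe B ^ j * ye B ^ (2 * (m - k - j))) := by
    refine ((qe_inv B hs).pow _).mul ?_
    unfold ye
    exact (inv_pencil B hs _).pow _
  obtain ⟨r, hr⟩ := pl_real (k := k) (n := j + (m - k - j)) hC hT (by
    refine rl_mul (rl_pow (qe_rl B hs) _) ?_
    rw [pow_mul]
    exact rl_pow (ye_rl B hs) _) (by omega)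
  unfold rr
  rw [hr, Complex.ofReal_re]

/-- the function of `σ` -/
noncomputable def hh (B : I × Option K → Fin m × Bool → Fin m × Bool → ℝ) (C : Mt m) (κ σ : ℝ) :
    ℝ :=
  ∑ k ∈ Finset.range (m + 1), ∑ j ∈ Finset.range (m - k + 1),
    (-1) ^ (m - k) * (cc m k j * κ ^ j * rr B C k j) * σ ^ (k + j)

/-- the reversed function -/
noncomputable def hr (B : I × Option K → Fin m × Bool → Fin m × Bool → ℝ) (C : Mt m) (κ t : ℝ) :
    ℝ :=
  ∑ k ∈ Finset.range (m + 1), ∑ j ∈ Finset.range (m - k + 1),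
    (-1) ^ (m - k) * (cc m k j * κ ^ j * rr B C k j) * t ^ (m - k - j)

omit [DecidableEq I] [DecidableEq K] in
theorem hr_eq (B : I × Option K → Fin m × Bool → Fin m × Bool → ℝ) (C : Mt m) (κ : ℝ) {t : ℝ}
    (ht : 0 < t) : hr B C κ t = t ^ m * hh B C κ (1 / t) := by
  unfold hr hh
  rw [Finset.mul_sum]
  refine Finset.sum_congr rfl fun k hk => ?_
  rw [Finset.mul_sum]
  refine Finset.sum_congr rfl fun j hj => ?_
  rw [Finset.mem_range] at hk hj
  have h1 : t ^ m = t ^ (m - k - j) * t ^ (k + j) := by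
    rw [← pow_add]
    congr 1
    omega
  rw [h1, one_div, inv_pow]
  have h2 : t ^ (k + j) ≠ 0 := (pow_pos ht _).ne'
  field_simp

theorem flow_hh (B : I × Option K → Fin m × Bool → Fin m × Bool → ℝ)
    (hs : ∀ s i j, B s i j = B s j i) {C : Mt m} (hC : ∀ i j, C j i = - C i j) (κ : ℝ) {σ : ℝ}
    (hσ : 0 ≤ σ) :
    eval (fun s : I × Option K => Complex.I * ((tr s.2 : ℝ) : ℂ))
      (flow (2 * m + 1) (fun s => eta s.2) ((σ * κ : ℝ) : ℂ)
        (GF (fun s => xf (B s)) (Lz m) m (pl ((Real.sqrt σ : ℂ) • C)))) = (hh B C κ σ : ℂ) := by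
  have hq : ∑ s : I × Option K, (eta s.2 : ℂ) • xf (B s) ^ 2 = qe B := by
    unfold qe
    refine Finset.sum_congr rfl fun s _ => ?_
    rw [eta_eq]
  have hy : ∑ s : I × Option K, (Complex.I * ((tr s.2 : ℝ) : ℂ)) • xf (B s) =
      Complex.I • ye B := by
    unfold ye
    rw [Finset.smul_sum]
    exact Finset.sum_congr rfl fun s _ => by rw [smul_smul]
  have hsq : ((Real.sqrt σ : ℂ)) ^ 2 = (σ : ℂ) := by
    rw [← Complex.ofReal_pow, Real.sq_sqrt hσ]
  rw [eval_flow_GF, hq, hy, pl_smul]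
  unfold hh
  push_cast
  refine Finset.sum_congr rfl fun k hk => Finset.sum_congr rfl fun j hj => ?_
  rw [Finset.mem_range] at hk hj
  have h1 : ((Real.sqrt σ : ℂ) • pl C) ^ (2 * k) * qe B ^ j *
      (Complex.I • ye B) ^ (2 * (m - k - j)) = ((σ : ℂ) ^ k * (-1) ^ (m - k - j)) •
        (pl C ^ (2 * k) * (qe B ^ j * ye B ^ (2 * (m - k - j)))) := by
    rw [smul_pow, smul_pow, pow_mul (Real.sqrt σ : ℂ), hsq, pow_mul Complex.I, Complex.I_sq]
    simp only [Algebra.smul_def, map_mul]
    ring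
  rw [h1, map_smul, rr_eq B hs hC (by omega), smul_eq_mul]
  unfold cc
  push_cast
  have h2 : (-1 : ℂ) ^ (m - k) = (-1) ^ (m - k - j) * (-1) ^ j := by
    rw [← pow_add]
    congr 1
    omega
  rw [h2, neg_pow, mul_pow]
  ring

/-- **Positivity of the fixed direction.** -/
theorem W_nonneg (B : I × Option K → Fin m × Bool → Fin m × Bool → ℝ)
    (hs : ∀ s i j, B s i j = B s j i)
    (hc : ∀ i x, 0 ≤ qd (B (i, none)) x ∧
      ∑ k, qd (B (i, some k)) x ^ 2 ≤ qd (B (i, none)) x ^ 2)
    (hpos : ∀ x, x ≠ 0 → 0 < ∑ i, qd (B (i, none)) x) {C : Mt m}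
    (hC : ∀ i j, C j i = - C i j) {κ : ℝ} (hκ : 0 ≤ κ) :
    0 ≤ ∑ k ∈ Finset.range (m + 1), (1 / ((2 * k).factorial * (m - k).factorial) : ℝ) *
      (Lz m (pl C ^ (2 * k) * (((-κ : ℝ) : ℂ) • qe B) ^ (m - k))).re := by
  have hne : ∀ σ : ℝ, 0 ≤ σ → hh B C κ σ ≠ 0 := by
    intro σ hσ h0
    have hC' : ∀ i j, ((Real.sqrt σ : ℂ) • C) j i = -((Real.sqrt σ : ℂ) • C) i j := by
      intro i j
      simp only [Pi.smul_apply, smul_eq_mul, hC i j]
      ring
    have hd : (GF (fun s => xf (B s)) (Lz m) m (pl ((Real.sqrt σ : ℂ) • C))).totalDegree ≤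
        2 * m := by
      unfold GF
      refine (totalDegree_finsetSum _ _).trans (Finset.sup_le fun k _ => ?_)
      refine (totalDegree_smul_le _ _).trans ?_
      unfold QF PF
      refine (totalDegree_finsetSum _ _).trans (Finset.sup_le fun β _ => ?_)
      refine (totalDegree_mul _ _).trans ?_
      rw [totalDegree_C, zero_add]
      refine (totalDegree_finsetProd _ _).trans ?_
      simp only [totalDegree_X, Finset.sum_const, Finset.card_univ, Fintype.card_fin, smul_eq_mul,
        mul_one]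
      omega
    have h1 := stabP_flow_all (J := 2 * m) le_rfl (stab_GF B hs hc hpos hC') hd
      (mul_nonneg hσ hκ) (fun s => Complex.I * ((tr s.2 : ℝ) : ℂ)) (fun i => by
        refine ⟨?_, ?_⟩ <;> simp [tr])
    apply h1
    rw [flow_hh B hs hC κ hσ, h0, Complex.ofReal_zero]
  have hcont : Continuous fun σ => hh B C κ σ := by
    unfold hh
    fun_prop
  have h00 : 0 < hh B C κ 0 := by
    have h1 : hh B C κ 0 = (-1) ^ m * rr B C 0 0 := by
      unfold hh
      rw [Finset.sum_eq_single 0]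
      · rw [Finset.sum_eq_single 0]
        · simp only [Nat.sub_zero, pow_zero, mul_one, add_zero, cc, mul_zero, Nat.factorial_zero,
            Nat.cast_one, one_mul]
          have : ((2 * m).factorial : ℝ) ≠ 0 := by exact_mod_cast (Nat.factorial_pos _).ne'
          rw [div_self this, one_mul]
        · intro j _ hj
          rw [zero_pow (by omega), mul_zero]
        · intro h
          exact absurd (Finset.mem_range.2 (Nat.succ_pos _)) h
      · intro k _ hk
        refine Finset.sum_eq_zero fun j _ => ?_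
        rw [zero_pow (by omega), mul_zero]
      · intro h
        exact absurd (Finset.mem_range.2 (Nat.succ_pos _)) h
    have h2 : rr B C 0 0 = (-1) ^ m * ((2 * m).factorial *
        Matrix.det (Matrix.of fun i j => ∑ s, tr s.2 * B s i j)) := by
      unfold rr
      simp only [mul_zero, pow_zero, one_mul, Nat.sub_zero]
      rw [ye_eq, Lz_xf_pow, Complex.ofReal_re]
    have h3 : 0 < Matrix.det (Matrix.of fun i j => ∑ s, tr s.2 * B s i j) := by
      refine det_pos_of_pos _ (fun i j => Finset.sum_congr rfl fun s _ => by rw [hs])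
        fun x hx => ?_
      rw [qd_sum B (fun s => tr s.2)]
      refine pencil_pos B hc hpos (fun s => tr s.2) (fun i => ?_) x hx
      refine ⟨?_, ?_⟩ <;> simp [tr]
    have h4 : (-1 : ℝ) ^ m * (-1) ^ m = 1 := by
      rw [← mul_pow]
      norm_num
    have h5 : (0 : ℝ) < (2 * m).factorial := by exact_mod_cast Nat.factorial_pos _
    rw [h1, h2, ← mul_assoc, h4, one_mul]
    positivity
  have hpos' : ∀ σ : ℝ, 0 ≤ σ → 0 < hh B C κ σ := by
    intro σ hσ
    by_contra hcon
    push Not at hcon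
    obtain ⟨s, hs1, hs2⟩ := intermediate_value_Icc' hσ hcont.continuousOn
      (show (0 : ℝ) ∈ Set.Icc (hh B C κ σ) (hh B C κ 0) from ⟨hcon, h00.le⟩)
    exact hne s hs1.1 hs2
  have hrc : Continuous fun t => hr B C κ t := by
    unfold hr
    fun_prop
  have h6 : 0 ≤ hr B C κ 0 := by
    have hlim := (hrc.tendsto 0).mono_left (nhdsWithin_le_nhds (s := Set.Ioi 0))
    refine ge_of_tendsto hlim ?_
    filter_upwards [self_mem_nhdsWithin] with t ht
    rw [hr_eq B C κ ht]
    have ht' : (0 : ℝ) < t := ht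
    have := hpos' (1 / t) (by positivity)
    positivity
  have h7 : hr B C κ 0 = (2 * m).factorial * ∑ k ∈ Finset.range (m + 1),
      (1 / ((2 * k).factorial * (m - k).factorial) : ℝ) *
      (Lz m (pl C ^ (2 * k) * (((-κ : ℝ) : ℂ) • qe B) ^ (m - k))).re := by
    unfold hr
    rw [Finset.mul_sum]
    refine Finset.sum_congr rfl fun k hk => ?_
    rw [Finset.mem_range] at hk
    rw [Finset.sum_eq_single (m - k)]
    · have h8 : pl C ^ (2 * k) * (((-κ : ℝ) : ℂ) • qe B) ^ (m - k) =
          (((-κ) ^ (m - k) : ℝ) : ℂ) • (pl C ^ (2 * k) * (qe B ^ (m - k) *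
            ye B ^ (2 * (m - k - (m - k))))) := by
        rw [Nat.sub_self, mul_zero, pow_zero, mul_one, smul_pow, mul_smul_comm]
        push_cast
        rfl
      rw [h8, map_smul, smul_eq_mul, Complex.re_ofReal_mul]
      unfold rr cc
      rw [Nat.sub_self, pow_zero, mul_zero, Nat.factorial_zero, neg_pow]
      push_cast
      ring
    · intro j hj hjk
      rw [Finset.mem_range] at hj
      rw [zero_pow (by omega), mul_zero]
    · intro h
      exact absurd (Finset.mem_range.2 (by omega)) h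
  rw [h7] at h6
  have h9 : (0 : ℝ) < (2 * m).factorial := by exact_mod_cast Nat.factorial_pos _
  exact nonneg_of_mul_nonneg_right h6 h9

end main

end Pool.Agent.U908.LP
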